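import Pool.Agent.Lib_MP_55d5ef_f.Act
import Pool.Agent.Lib_MP_55d5ef.DataA

/-!
# The stabilizer of the base cusp in `Gam`
-/

open Matrix

namespace MP55F

open Lib_MP_55d5ef_geo

/-- an element of `P` with trivial linear part is a translation -/
lemma eq_TP (s : PG) (h : lnM s = 1) : s = TP (trV s) := by
  apply Subtype.ext; apply Subtype.ext; apply Units.ext
  change mP s = TM (mP s 1 4) (mP s 2 4) (mP s 3 4)
  have hg := (s : Gp).2.1
  have h' : ∀ i j : Fin 5, bf ((mP s).col i) ((mP s).col j)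
      = bf (Pi.single i 1 : Fin 5 → ℤ) (Pi.single j 1) := by
    intro i j
    rw [← Matrix.mulVec_single_one, ← Matrix.mulVec_single_one]
    exact hg _ _
  have m11 : mP s 1 1 = 1 := congrFun (congrFun h 0) 0
  have m12 : mP s 1 2 = 0 := congrFun (congrFun h 0) 1
  have m13 : mP s 1 3 = 0 := congrFun (congrFun h 0) 2
  have m21 : mP s 2 1 = 0 := congrFun (congrFun h 1) 0
  have m22 : mP s 2 2 = 1 := congrFun (congrFun h 1) 1
  have m23 : mP s 2 3 = 0 := congrFun (congrFun h 1) 2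
  have m31 : mP s 3 1 = 0 := congrFun (congrFun h 2) 0
  have m32 : mP s 3 2 = 0 := congrFun (congrFun h 2) 1
  have m33 : mP s 3 3 = 1 := congrFun (congrFun h 2) 2
  have c0 := mP_col0 s 0
  have c1 := mP_col0 s 1
  have c2 := mP_col0 s 2
  have c3 := mP_col0 s 3
  have c4 := mP_col0 s 4
  have r1 := mP_row4 s 1
  have r2 := mP_row4 s 2
  have r3 := mP_row4 s 3
  have r4 := mP_row4 s 4
  simp [e5] at c0 c1 c2 c3 c4 r1 r2 r3 r4
  have h14 := h' 1 4
  have h24 := h' 2 4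
  have h34 := h' 3 4
  have h44 := h' 4 4
  simp only [bf, Matrix.col_apply, m11, m12, m13, m21, m22, m23, m31, m32, m33, r1, r2, r3, r4]
    at h14 h24 h34 h44
  simp at h14 h24 h34 h44
  ext i j
  fin_cases i <;> fin_cases j <;>
    simp [TM, qK, m11, m12, m13, m21, m22, m23, m31, m32, m33, c0, c1, c2, c3, c4, r1, r2, r3, r4] <;>
    linarith

/-- the base point of `Ω` -/
def ω0 : Om := (0, 1)

/-- the stabilizer of the base point -/
noncomputable def St : Subgroup Gp := (MulAction.stabilizer (Equiv.Perm Om) ω0).comap actΩ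

lemma mem_St {g : Gp} : g ∈ St ↔ actΩ g ω0 = ω0 := Iff.rfl

/-- the reflection with helper index -/
def Sk (k : ℕ) : PG := if k = 3 then SP1 else if k = 4 then SP3 else SP2

lemma Sk_val (k : ℕ) : ((Sk k : PG) : Gp).1 = Lib_MP_55d5ef.SG k := by
  apply Units.ext
  change _ = Lib_MP_55d5ef.SM k
  unfold Sk Lib_MP_55d5ef.SM
  split_ifs <;> rfl

lemma Sk_inv (k : ℕ) : (Sk k)⁻¹ = Sk k := by
  unfold Sk
  split_ifs
  · exact SP1_inv
  · exact SP3_inv
  · exact SP2_inv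

lemma trV_Sk (k : ℕ) : trV (Sk k) = 0 := by
  unfold Sk
  split_ifs
  · exact trV_SP1
  · exact trV_SP3
  · exact trV_SP2

/-- its 3 by 3 matrix -/
def rkk (k : ℕ) : M3 := if k = 3 then rk 0 else if k = 4 then rk 1 else rk 2

lemma lnM_Sk (k : ℕ) : lnM (Sk k) = rkk k := by
  unfold Sk rkk
  split_ifs
  · exact lnM_SP1
  · exact lnM_SP3
  · exact lnM_SP2

/-- the representative of class `i` -/
def rp (i : ℕ) : KK := (Lib_MP_55d5ef.repx i, 0, Lib_MP_55d5ef.repz i)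

/-- the side map in `Gp` -/
def sd (i : ℕ) : Gp :=
  (TP (rp (Lib_MP_55d5ef.pairs.getD i (0, 0)).1) : Gp) *
    (Sk (Lib_MP_55d5ef.pairs.getD i (0, 0)).2 : Gp) * JG * (TP (-(rp i)) : Gp)

lemma sd_val (i : ℕ) : (sd i).1 = Lib_MP_55d5ef.side i := by
  unfold sd Lib_MP_55d5ef.side
  simp only [Subgroup.coe_mul, Sk_val]
  have h : (TP (-(rp i)) : Gp).1
      = (Lib_MP_55d5ef.TG (Lib_MP_55d5ef.repx i) 0 (Lib_MP_55d5ef.repz i))⁻¹ := by
    apply Units.ext
    change TM (-(Lib_MP_55d5ef.repx i)) (-0) (-(Lib_MP_55d5ef.repz i)) = _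
    rfl
  rw [h]
  rfl

lemma sd_chk : ∀ i < 40, jc (ph (rp i)) = ph (rp (Lib_MP_55d5ef.pairs.getD i (0, 0)).1) ∧
    rc (ph (rp i)) * rkk (Lib_MP_55d5ef.pairs.getD i (0, 0)).2 = 1 := by decide +kernel

lemma sd_St (i : ℕ) (hi : i < 40) : sd i ∈ St := by
  obtain ⟨h1, h2⟩ := sd_chk i hi
  rw [mem_St]
  unfold sd
  simp only [map_mul, Equiv.Perm.coe_mul, Function.comp_apply]
  rw [actΩ_T, actΩ_J, actΩ_P, actΩ_T, Sk_inv]
  unfold jf ra ω0
  simp only [OneMemClass.coe_one, mv_one, ph_neg, sub_neg_eq_add, zero_add, trV_Sk, mv_zero,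
    ph_zero, add_zero, mul_one, Submonoid.coe_mul, lnM_Sk]
  refine Prod.ext ?_ ?_
  · simp only
    rw [h2, mv_one, h1, sub_self]
  · apply Subtype.ext
    exact h2

lemma TP_St {v : KK} (h : InLam v.1 v.2.1 v.2.2) : (TP v : Gp) ∈ St := by
  rw [mem_St, actΩ_T]
  have h0 := (ph_eq_zero v).mpr h
  unfold ω0
  simp only [OneMemClass.coe_one, mv_one, h0, sub_zero]

lemma Gam_le : Lib_MP_55d5ef.Gam ≤ St.map Gp.subtype := by
  unfold Lib_MP_55d5ef.Gam
  rw [Subgroup.closure_le]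
  rintro g (⟨i, hi, rfl⟩ | hg)
  · exact ⟨sd i, sd_St i hi, sd_val i⟩
  · simp only [Set.mem_insert_iff, Set.mem_singleton_iff] at hg
    rcases hg with rfl | rfl | rfl
    · exact ⟨TP (2, 0, 12), TP_St ⟨⟨1, by norm_num⟩, ⟨0, by norm_num⟩⟩, rfl⟩
    · exact ⟨TP (0, 1, 11), TP_St ⟨⟨0, by norm_num⟩, ⟨0, by norm_num⟩⟩, rfl⟩
    · exact ⟨TP (0, 0, 20), TP_St ⟨⟨0, by norm_num⟩, ⟨1, by norm_num⟩⟩, rfl⟩

/-- **the stabilizer of the base cusp in `Gam` is the group of translations by `Λ'`** -/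
theorem Gam_stab : ∀ g : GL (Fin 5) ℤ, (g ∈ Lib_MP_55d5ef.Gam ∧ g.1 *ᵥ (e5 : Fin 5 → ℤ) = e5) ↔
    ∃ x y z : ℤ, InLam x y z ∧ g.1 = TM x y z := by
  intro g
  constructor
  · rintro ⟨hg, he⟩
    obtain ⟨g', hg', rfl⟩ := Gam_le hg
    have hgSt : g' ∈ St := hg'
    set s : PG := ⟨g', he⟩ with hs
    have h1 : actΩ (s : Gp) ω0 = ω0 := hgSt
    rw [actΩ_P] at h1
    unfold ra ω0 at h1
    have h2 := congrArg Prod.fst h1
    have h3 := congrArg (fun x : Om => x.2.1) h1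
    simp only [OneMemClass.coe_one, mv_one, zero_add, one_mul] at h2 h3
    have h4 : lnM s⁻¹ = 1 := h3
    have h5 := eq_TP s⁻¹ h4
    have h6 : s = TP (-(trV s⁻¹)) := by
      rw [← TP_inv, ← h5, inv_inv]
    have h7 : ph (-(trV s⁻¹)) = 0 := by rw [ph_neg, h2]; exact neg_zero
    rw [ph_eq_zero] at h7
    refine ⟨_, _, _, h7, ?_⟩
    have : (s : Gp).1.1 = (TP (-(trV s⁻¹)) : Gp).1.1 := by rw [← h6]
    exact this
  · rintro ⟨x, y, z, hl, hg⟩
    have : g = Lib_MP_55d5ef.TG x y z := Units.ext hg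
    subst this
    exact ⟨Lib_MP_55d5ef.TG_mem hl, TU_e5 (x, y, z)⟩

end MP55F
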