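import Mathlib

/-!
# A descent presentation theorem (replacement of Poincare's polyhedron theorem)

`G` is a group with a subgroup `P`, an involution `J`, a map `T : K → P` and a height function
`ht : G → ℕ`.  Under the hypotheses bundled in `HData`, every homomorphism `P →* H` together with
an involution `j` of `H` satisfying the triangle and square relations extends to `G →* H`.
-/

namespace MP55F

/-- the data and hypotheses on the side of the group `G` -/
structure HData (G : Type*) [Group G] (K : Type*) [AddCommGroup K] where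
  P : Subgroup G
  J : G
  T : K → P
  ht : G → ℕ
  μ : K → ℕ
  R2 : Set K
  R4 : Set K
  σ : K → P
  T_add : ∀ a b, T (a + b) = T a * T b
  J2 : J * J = 1
  J_not_mem : J ∉ P
  ht_P : ∀ s : P, ∀ g, ht ((s : G) * g) = ht g
  ht0 : ∀ g, ht g = 0 → g ∈ P
  ht_one : ht 1 = 0
  desc : ∀ g, ht g ≠ 0 → ∃ v, ht (J * (T (-v) : G) * g) < ht g
  conj : ∀ s : P, ∀ v, ∃ v', ∃ s' : P, s * T v = T v' * s' ∧ (s' : G) * J = J * s'
  A2 : ∀ m ∈ R2, J * (T m : G) * J = (T m : G) * J * (T (-m) : G) * (σ m : G)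
  A4 : ∀ m ∈ R4, J * (T m : G) * J = (T m : G) * J * (T (-m) : G) * J * (T m : G)
  neg2 : ∀ m ∈ R2, -m ∈ R2
  neg4 : ∀ m ∈ R4, -m ∈ R4
  ht4 : ∀ m ∈ R4, ∀ x, ht (J * (T (-m) : G) * J * x) + ht x
    = ht (J * (T (-m) : G) * x) + ht (J * x)
  exch : ∀ d : K, d ≠ 0 → ∃ r ∈ R2 ∪ R4, μ (d - r) < μ d ∧ ∀ g k,
    ht (J * (T (-(k - r)) : G) * g) + ht (J * (T (-(k - d + r)) : G) * g)
      ≤ ht (J * (T (-k) : G) * g) + ht (J * (T (-(k - d)) : G) * g)

/-- the data on the side of the target group `H` -/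
structure TData {G : Type*} [Group G] {K : Type*} [AddCommGroup K] (D : HData G K)
    (H : Type*) [Group H] where
  π : D.P →* H
  j : H
  j2 : j * j = 1
  comm : ∀ s : D.P, (s : G) * D.J = D.J * s → π s * j = j * π s
  B2 : ∀ m ∈ D.R2, j * π (D.T m) * j = π (D.T m) * j * π (D.T (-m)) * π (D.σ m)
  B4 : ∀ m ∈ D.R4, j * π (D.T m) * j = π (D.T m) * j * π (D.T (-m)) * j * π (D.T m)

variable {G : Type*} [Group G] {K : Type*} [AddCommGroup K] (D : HData G K)

namespace HData

lemma T_zero : D.T 0 = 1 := by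
  have h := D.T_add 0 0
  rw [add_zero] at h
  exact (left_eq_mul.mp h)

lemma T_neg (a : K) : D.T (-a) = (D.T a)⁻¹ := by
  have h := D.T_add (-a) a
  rw [neg_add_cancel, D.T_zero] at h
  exact (eq_inv_of_mul_eq_one_left h.symm)

lemma T_negG (a : K) : (D.T (-a) : G) = (D.T a : G)⁻¹ := by
  rw [D.T_neg]; rfl

lemma T_addG (a b : K) : (D.T (a + b) : G) = (D.T a : G) * (D.T b : G) := by
  rw [D.T_add]; rfl

lemma Jinv : D.J⁻¹ = D.J := by
  rw [inv_eq_iff_mul_eq_one]; exact D.J2

lemma JJ (x : G) : D.J * (D.J * x) = x := by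
  rw [← mul_assoc, D.J2, one_mul]

lemma T_cancel (a : K) (x : G) : (D.T a : G) * ((D.T (-a) : G) * x) = x := by
  rw [T_negG, ← mul_assoc, mul_inv_cancel, one_mul]

lemma T_cancel' (a : K) (x : G) : (D.T (-a) : G) * ((D.T a : G) * x) = x := by
  rw [T_negG, ← mul_assoc, inv_mul_cancel, one_mul]

lemma exists_desc (g : G) (h : D.ht g ≠ 0) : ∃ v, D.ht (D.J * (D.T (-v) : G) * g) < D.ht g :=
  D.desc g h

end HData

variable {D} {H : Type*} [Group H] (E : TData D H)

open Classical in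
/-- the extension, by recursion on the height -/
noncomputable def F (g : G) : H :=
  if h : D.ht g = 0 then E.π ⟨g, D.ht0 g h⟩
  else E.π (D.T (D.desc g h).choose) * E.j *
    F (D.J * (D.T (-(D.desc g h).choose) : G) * g)
termination_by D.ht g
decreasing_by exact (D.desc g h).choose_spec

/-- the value obtained through the cusp `v` -/
noncomputable def Dv (g : G) (v : K) : H :=
  E.π (D.T v) * E.j * F E (D.J * (D.T (-v) : G) * g)

lemma F_zero (g : G) (h : D.ht g = 0) : F E g = E.π ⟨g, D.ht0 g h⟩ := by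
  rw [F]; simp [h]

lemma F_pos (g : G) (h : D.ht g ≠ 0) :
    ∃ v, D.ht (D.J * (D.T (-v) : G) * g) < D.ht g ∧ F E g = Dv E g v := by
  refine ⟨(D.desc g h).choose, (D.desc g h).choose_spec, ?_⟩
  rw [F]; simp only [h, dite_false]; rfl

lemma jj (x : H) : E.j * (E.j * x) = x := by
  rw [← mul_assoc, E.j2, one_mul]

lemma jinv : E.j⁻¹ = E.j := by
  rw [inv_eq_iff_mul_eq_one]; exact E.j2

lemma πT_add (a b : K) : E.π (D.T (a + b)) = E.π (D.T a) * E.π (D.T b) := by
  rw [D.T_add, map_mul]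

lemma πT_neg (a : K) : E.π (D.T (-a)) = (E.π (D.T a))⁻¹ := by
  rw [D.T_neg, map_inv]

lemma πT_cancel (a : K) (x : H) : E.π (D.T a) * (E.π (D.T (-a)) * x) = x := by
  rw [πT_neg, ← mul_assoc, mul_inv_cancel, one_mul]

lemma πT_cancel' (a : K) (x : H) : E.π (D.T (-a)) * (E.π (D.T a) * x) = x := by
  rw [πT_neg, ← mul_assoc, inv_mul_cancel, one_mul]

/-- the induction statement -/
def IH (N : ℕ) : Prop :=
  (∀ g, D.ht g < N → ∀ s : D.P, F E ((s : G) * g) = E.π s * F E g) ∧
  (∀ g, D.ht g < N → D.ht (D.J * g) < N → F E (D.J * g) = E.j * F E g)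

/-- group form of the triangle relation -/
lemma A2' {m : K} (hm : m ∈ D.R2) (x : G) :
    D.J * ((D.T (-m) : G) * (D.J * x))
      = (((D.σ m)⁻¹ * D.T m : D.P) : G) * (D.J * ((D.T (-m) : G) * x)) := by
  have h := D.A2 m hm
  have h2 : (D.J * (D.T m : G) * D.J)⁻¹ = ((D.T m : G) * D.J * (D.T (-m) : G) * (D.σ m : G))⁻¹ := by
    rw [h]
  simp only [mul_inv_rev, D.Jinv, D.T_negG, inv_inv] at h2
  simp only [D.T_negG, Subgroup.coe_mul, Subgroup.coe_inv, ← mul_assoc]
  simp only [← mul_assoc] at h2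
  rw [h2]

lemma A4' {m : K} (hm : m ∈ D.R4) (x : G) :
    D.J * ((D.T (-m) : G) * (D.J * x))
      = (D.T (-m) : G) * (D.J * ((D.T m : G) * (D.J * ((D.T (-m) : G) * x)))) := by
  have h := D.A4 m hm
  have h2 : (D.J * (D.T m : G) * D.J)⁻¹
      = ((D.T m : G) * D.J * (D.T (-m) : G) * D.J * (D.T m : G))⁻¹ := by
    rw [h]
  simp only [mul_inv_rev, D.Jinv, D.T_negG, inv_inv] at h2
  simp only [D.T_negG, ← mul_assoc]
  simp only [← mul_assoc] at h2
  rw [h2]

lemma B2' {m : K} (hm : m ∈ D.R2) (x : H) :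
    E.j * (E.π (D.T (-m)) * (E.j * x))
      = E.π ((D.σ m)⁻¹ * D.T m) * (E.j * (E.π (D.T (-m)) * x)) := by
  have h := E.B2 m hm
  have h2 : (E.j * E.π (D.T m) * E.j)⁻¹
      = (E.π (D.T m) * E.j * E.π (D.T (-m)) * E.π (D.σ m))⁻¹ := by
    rw [h]
  simp only [mul_inv_rev, jinv, πT_neg, inv_inv] at h2
  simp only [πT_neg, map_mul, map_inv, ← mul_assoc]
  simp only [← mul_assoc] at h2
  rw [h2]

lemma B4' {m : K} (hm : m ∈ D.R4) (x : H) :
    E.j * (E.π (D.T (-m)) * (E.j * x))
      = E.π (D.T (-m)) * (E.j * (E.π (D.T m) * (E.j * (E.π (D.T (-m)) * x)))) := by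
  have h := E.B4 m hm
  have h2 : (E.j * E.π (D.T m) * E.j)⁻¹
      = (E.π (D.T m) * E.j * E.π (D.T (-m)) * E.j * E.π (D.T m))⁻¹ := by
    rw [h]
  simp only [mul_inv_rev, jinv, πT_neg, inv_inv] at h2
  simp only [πT_neg, ← mul_assoc]
  simp only [← mul_assoc] at h2
  rw [h2]

/-- one relevant step does not change the value -/
lemma Dv_step {N : ℕ} (ih : IH E N) (g : G) (hg : D.ht g = N) (v m : K)
    (hm : m ∈ D.R2 ∪ D.R4) (h1 : D.ht (D.J * (D.T (-v) : G) * g) < N)
    (h2 : D.ht (D.J * (D.T (-(v + m)) : G) * g) < N) : Dv E g v = Dv E g (v + m) := by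
  obtain ⟨ih1, ih2⟩ := ih
  set g1 := D.J * (D.T (-v) : G) * g with hg1
  set g2 := D.J * (D.T (-(v + m)) : G) * g with hg2
  have e1 : g2 = D.J * ((D.T (-m) : G) * (D.J * g1)) := by
    rw [hg2, hg1, neg_add_rev, D.T_addG]
    simp only [mul_assoc, D.JJ]
  have key : F E g2 = E.j * (E.π (D.T (-m)) * (E.j * F E g1)) := by
    have a1 : F E ((D.T (-m) : G) * g1) = E.π (D.T (-m)) * F E g1 := ih1 g1 h1 _
    have a0 : D.ht ((D.T (-m) : G) * g1) < N := by rw [D.ht_P]; exact h1
    rcases hm with hm | hm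
    · rw [A2' hm] at e1
      have b0 : D.ht (D.J * ((D.T (-m) : G) * g1)) < N := by
        rw [e1, D.ht_P] at h2; exact h2
      rw [e1, ih1 _ b0, ih2 _ a0 b0, a1, B2' E hm]
    · have c1 := D.ht4 m hm g1
      have c2 : D.ht (D.J * g1) = N := by
        rw [hg1, mul_assoc, D.JJ, D.ht_P, hg]
      have c3 : D.J * (D.T (-m) : G) * D.J * g1 = g2 := by
        rw [e1]; simp only [mul_assoc]
      rw [c3, c2] at c1
      have b0 : D.ht (D.J * ((D.T (-m) : G) * g1)) < N := by
        rw [← mul_assoc]; omega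
      rw [A4' hm] at e1
      have b1 : D.ht (D.J * ((D.T m : G) * (D.J * ((D.T (-m) : G) * g1)))) < N := by
        rw [e1, D.ht_P] at h2; exact h2
      have b2 : D.ht ((D.T m : G) * (D.J * ((D.T (-m) : G) * g1))) < N := by
        rw [D.ht_P]; exact b0
      rw [e1, ih1 _ b1, ih2 _ b2 b1, ih1 _ b0, ih2 _ a0 b0, a1, B4' E hm]
  unfold Dv
  rw [← hg1, ← hg2, key, πT_add]
  simp only [mul_assoc, jj, πT_cancel]

lemma Dv_indep {N : ℕ} (ih : IH E N) (g : G) (hg : D.ht g = N) (v v' : K)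
    (h1 : D.ht (D.J * (D.T (-v) : G) * g) < N)
    (h2 : D.ht (D.J * (D.T (-v') : G) * g) < N) : Dv E g v = Dv E g v' := by
  obtain ⟨n, hn⟩ : ∃ n, D.μ (v - v') = n := ⟨_, rfl⟩
  induction n using Nat.strong_induction_on generalizing v v' with
  | _ n IHn =>
    by_cases hvv : v = v'
    · rw [hvv]
    obtain ⟨r, hr, hμ, hex⟩ := D.exch (v - v') (sub_ne_zero.mpr hvv)
    have hex := hex g v
    have e : v - (v - v') = v' := by abel
    rw [e] at hex
    by_cases hd : D.ht (D.J * (D.T (-(v - r)) : G) * g) < N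
    · have s1 : Dv E g (v - r) = Dv E g v := by
        have := Dv_step E ih g hg (v - r) r hr hd (by simpa using h1)
        simpa using this
      rw [← s1]
      refine IHn (D.μ (v - r - v')) ?_ (v - r) v' hd h2 rfl
      rw [← hn]
      have : v - r - v' = v - v' - r := by abel
      rw [this]; exact hμ
    · have hd2 : D.ht (D.J * (D.T (-(v' + r)) : G) * g) < N := by omega
      rw [Dv_step E ih g hg v' r hr h2 hd2]
      refine IHn (D.μ (v - (v' + r))) ?_ v (v' + r) h1 hd2 rfl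
      rw [← hn]
      have : v - (v' + r) = v - v' - r := by abel
      rw [this]; exact hμ

/-- the value of `F` through any descending cusp -/
lemma F_eq_Dv {N : ℕ} (ih : IH E N) (g : G) (hg : D.ht g = N) (v : K)
    (h1 : D.ht (D.J * (D.T (-v) : G) * g) < N) : F E g = Dv E g v := by
  have h0 : D.ht g ≠ 0 := by omega
  obtain ⟨w, hw, hF⟩ := F_pos E g h0
  rw [hF]
  exact Dv_indep E ih g hg w v (by rw [← hg]; exact hw) h1

lemma stepA {N : ℕ} (ih : IH E N) (g : G) (hg : D.ht g = N) (s : D.P) :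
    F E ((s : G) * g) = E.π s * F E g := by
  by_cases h0 : D.ht g = 0
  · have h1 : D.ht ((s : G) * g) = 0 := by rw [D.ht_P]; exact h0
    rw [F_zero E g h0, F_zero E _ h1, ← map_mul]
    rfl
  obtain ⟨v, hv⟩ := D.desc g h0
  obtain ⟨v', s', hs, hc⟩ := D.conj s v
  have hsG : (s : G) * (D.T v : G) = (D.T v' : G) * (s' : G) := by
    have := congrArg (Subtype.val) hs
    simpa using this
  have e1 : D.J * (D.T (-v') : G) * ((s : G) * g) = (s' : G) * (D.J * (D.T (-v) : G) * g) := by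
    have : (s : G) = (D.T v' : G) * (s' : G) * (D.T (-v) : G) := by
      rw [← hsG, D.T_negG]; group
    rw [this]
    simp only [mul_assoc, D.T_cancel']
    rw [← mul_assoc, ← hc, mul_assoc]
  have hv' : D.ht (D.J * (D.T (-v) : G) * g) < N := by rw [← hg]; exact hv
  have h2 : D.ht (D.J * (D.T (-v') : G) * ((s : G) * g)) < N := by
    rw [e1, D.ht_P]; exact hv'
  rw [F_eq_Dv E ih ((s : G) * g) (by rw [D.ht_P]; exact hg) v' h2,
    F_eq_Dv E ih g hg v hv']
  unfold Dv
  rw [e1, ih.1 _ hv' s']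
  have hc' := E.comm s' hc
  have hπ : E.π s * E.π (D.T v) = E.π (D.T v') * E.π s' := by
    rw [← map_mul, ← map_mul, hs]
  calc E.π (D.T v') * E.j * (E.π s' * F E (D.J * (D.T (-v) : G) * g))
      = E.π (D.T v') * (E.j * E.π s') * F E (D.J * (D.T (-v) : G) * g) := by
        simp only [mul_assoc]
    _ = E.π s * (E.π (D.T v) * E.j * F E (D.J * (D.T (-v) : G) * g)) := by
        rw [← hc', ← mul_assoc (E.π (D.T v')), ← hπ]; simp only [mul_assoc]

/-- at equal heights there is a relevant descending cusp -/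
lemma exists_rel {N : ℕ} (g : G) (h0 : D.ht (D.J * (D.T (-(0 : K)) : G) * g) = N) (v : K)
    (hv : D.ht (D.J * (D.T (-v) : G) * g) < N) :
    ∃ n ∈ D.R2 ∪ D.R4, D.ht (D.J * (D.T (-n) : G) * g) < N := by
  obtain ⟨n, hn⟩ : ∃ n, D.μ (0 - v) = n := ⟨_, rfl⟩
  induction n using Nat.strong_induction_on generalizing v with
  | _ n IHn =>
    have hv0 : (0 : K) - v ≠ 0 := by
      intro h
      have : v = 0 := by
        have := congrArg (fun x => -x) h
        simpa using this
      rw [this, h0] at hv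
      exact lt_irrefl _ hv
    obtain ⟨r, hr, hμ, hex⟩ := D.exch (0 - v) hv0
    have hex := hex g 0
    have e : (0 : K) - (0 - v) = v := by abel
    rw [e, h0] at hex
    by_cases hd : D.ht (D.J * (D.T (-(0 - r)) : G) * g) < N
    · refine ⟨0 - r, ?_, hd⟩
      rw [zero_sub]
      rcases hr with hr | hr
      · exact Or.inl (D.neg2 r hr)
      · exact Or.inr (D.neg4 r hr)
    · have hd2 : D.ht (D.J * (D.T (-(v + r)) : G) * g) < N := by omega
      refine IHn (D.μ (0 - (v + r))) ?_ (v + r) hd2 rfl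
      rw [← hn]
      have : 0 - (v + r) = 0 - v - r := by abel
      rw [this]; exact hμ

lemma sig_inv {n : K} (hn : n ∈ D.R2) :
    (D.σ n)⁻¹ * D.T n = D.T (-n) * D.σ n := by
  apply Subtype.ext
  have h := D.A2 n hn
  have h1 : (D.T (-n) : G) * (D.σ n : G) = D.J * (D.T (-n) : G) * D.J * (D.T n : G) * D.J := by
    have : D.J * (D.T (-n) : G) * (D.J * (D.T n : G) * D.J)
        = D.J * (D.T (-n) : G) * ((D.T n : G) * D.J * (D.T (-n) : G) * (D.σ n : G)) := by rw [h]
    simp only [mul_assoc, D.T_cancel', D.JJ] at this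
    simp only [mul_assoc]
    exact this.symm
  have h2 : ((D.T (-n) : G) * (D.σ n : G))⁻¹ = (D.T (-n) : G) * (D.σ n : G) := by
    rw [h1]
    simp only [mul_inv_rev, D.Jinv, D.T_negG, inv_inv, mul_assoc]
  rw [mul_inv_rev, D.T_negG, inv_inv] at h2
  simp only [Subgroup.coe_mul, Subgroup.coe_inv]
  rw [D.T_negG]
  exact h2

lemma stepB_eq {N : ℕ} (hN : N ≠ 0) (ih : IH E N) (g : G) (hg : D.ht g = N)
    (hJ : D.ht (D.J * g) = N) : F E (D.J * g) = E.j * F E g := by
  have h00 : D.ht (D.J * (D.T (-(0 : K)) : G) * g) = N := by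
    rw [neg_zero, D.T_zero, Subgroup.coe_one, mul_one]; exact hJ
  obtain ⟨v, hv⟩ := D.desc g (by rw [hg]; exact hN)
  rw [hg] at hv
  obtain ⟨n, hn, hd⟩ := exists_rel g h00 v hv
  set g2 := D.J * (D.T (-n) : G) * g with hg2
  have hgg : g = (D.T n : G) * (D.J * g2) := by
    rw [hg2]; simp only [mul_assoc, D.JJ, D.T_cancel]
  have Fg : F E g = E.π (D.T n) * (E.j * F E g2) := by
    rw [F_eq_Dv E ih g hg n hd]; unfold Dv; rw [← hg2, mul_assoc]
  obtain ⟨ih1, ih2⟩ := ih
  rcases hn with hn | hn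
  · have e1 : D.J * (D.T (-n) : G) * (D.J * g)
        = (((D.σ n)⁻¹ * D.T n : D.P) : G) * g2 := by
      rw [mul_assoc, A2' hn g, hg2]; simp only [mul_assoc]
    have h2 : D.ht (D.J * (D.T (-n) : G) * (D.J * g)) < N := by
      rw [e1, D.ht_P]; exact hd
    rw [F_eq_Dv E ⟨ih1, ih2⟩ (D.J * g) hJ n h2]
    unfold Dv
    rw [e1, ih1 _ hd, Fg, sig_inv hn]
    have b := congrArg (fun x => x * F E g2) (E.B2 n hn)
    simp only [mul_assoc] at b
    rw [b]
    simp only [map_mul, mul_assoc]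
  · have e1 : D.J * (D.T (-n) : G) * (D.J * g)
        = (D.T (-n) : G) * (D.J * ((D.T n : G) * g2)) := by
      rw [mul_assoc, A4' hn g, hg2]; simp only [mul_assoc]
    have c1 := D.ht4 n hn g
    have c3 : D.J * (D.T (-n) : G) * D.J * g = D.J * (D.T (-n) : G) * (D.J * g) := by
      simp only [mul_assoc]
    have h2 : D.ht (D.J * (D.T (-n) : G) * (D.J * g)) < N := by
      rw [c3, hg, hJ, ← hg2] at c1
      omega
    have b1 : D.ht (D.J * ((D.T n : G) * g2)) < N := by
      rw [e1, D.ht_P] at h2; exact h2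
    have b2 : D.ht ((D.T n : G) * g2) < N := by rw [D.ht_P]; exact hd
    rw [F_eq_Dv E ⟨ih1, ih2⟩ (D.J * g) hJ n h2]
    unfold Dv
    rw [e1, ih1 _ b1, ih2 _ b2 b1, ih1 _ hd, Fg]
    have b := congrArg (fun x => x * F E g2) (E.B4 n hn)
    simp only [mul_assoc] at b
    rw [b]
    simp only [mul_assoc]

lemma IH_all (N : ℕ) : IH E N := by
  induction N with
  | zero => exact ⟨fun g h => absurd h (Nat.not_lt_zero _), fun g h => absurd h (Nat.not_lt_zero _)⟩
  | succ N ih =>
    refine ⟨fun g hg s => ?_, fun g hg hJ => ?_⟩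
    · rcases Nat.lt_succ_iff_lt_or_eq.mp hg with h | h
      · exact ih.1 g h s
      · exact stepA E ih g h s
    · rcases Nat.lt_succ_iff_lt_or_eq.mp hg with h | h
      · rcases Nat.lt_succ_iff_lt_or_eq.mp hJ with h' | h'
        · exact ih.2 g h h'
        · -- `J g` is higher than `g`
          have hd : D.ht (D.J * (D.T (-(0 : K)) : G) * (D.J * g)) < N := by
            rw [neg_zero, D.T_zero, Subgroup.coe_one, mul_one, D.JJ]; exact h
          rw [F_eq_Dv E ih (D.J * g) h' 0 hd]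
          unfold Dv
          rw [neg_zero, D.T_zero, Subgroup.coe_one, mul_one, D.JJ, map_one, one_mul]
      · rcases Nat.lt_succ_iff_lt_or_eq.mp hJ with h' | h'
        · have hd : D.ht (D.J * (D.T (-(0 : K)) : G) * g) < N := by
            rw [neg_zero, D.T_zero, Subgroup.coe_one, mul_one]; exact h'
          rw [F_eq_Dv E ih g h 0 hd]
          unfold Dv
          rw [neg_zero, D.T_zero, Subgroup.coe_one, mul_one, map_one, one_mul, jj]
        · by_cases hN : N = 0
          · exfalso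
            subst hN
            have m1 := D.ht0 g h
            have m2 := D.ht0 _ h'
            exact D.J_not_mem (by simpa using D.P.mul_mem m2 (D.P.inv_mem m1))
          · exact stepB_eq E hN ih g h h'

lemma F_P (s : D.P) (g : G) : F E ((s : G) * g) = E.π s * F E g :=
  (IH_all E (D.ht g + 1)).1 g (Nat.lt_succ_self _) s

lemma F_J (g : G) : F E (D.J * g) = E.j * F E g :=
  (IH_all E (max (D.ht g) (D.ht (D.J * g)) + 1)).2 g
    (Nat.lt_succ_of_le (le_max_left _ _)) (Nat.lt_succ_of_le (le_max_right _ _))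

lemma F_one : F E 1 = 1 := by
  rw [F_zero E 1 D.ht_one]
  exact map_one E.π

lemma F_mul (g x : G) : F E (g * x) = F E g * F E x := by
  obtain ⟨n, hn⟩ : ∃ n, D.ht g = n := ⟨_, rfl⟩
  induction n using Nat.strong_induction_on generalizing g with
  | _ n IHn =>
    by_cases h0 : D.ht g = 0
    · have e := F_P E ⟨g, D.ht0 g h0⟩ x
      rw [F_zero E g h0]
      exact e
    · obtain ⟨v, hv⟩ := D.desc g h0
      have eg : g = (D.T v : G) * (D.J * (D.J * (D.T (-v) : G) * g)) := by
        simp only [mul_assoc, D.JJ, D.T_cancel]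
      have e1 := IHn _ (by rw [← hn]; exact hv) (D.J * (D.T (-v) : G) * g) rfl
      conv_lhs => rw [eg]
      rw [mul_assoc, F_P, mul_assoc, F_J, e1]
      conv_rhs => rw [eg]
      rw [F_P, F_J]
      simp only [mul_assoc]

/-- the extension as a homomorphism -/
noncomputable def ext : G →* H where
  toFun := F E
  map_one' := F_one E
  map_mul' := F_mul E

lemma ext_P (s : D.P) : ext E (s : G) = E.π s := by
  have := F_P E s 1
  rw [mul_one, F_one, mul_one] at this
  exact this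

lemma ext_J : ext E D.J = E.j := by
  have := F_J E 1
  rw [mul_one, F_one, mul_one] at this
  exact this

/-- `G` is generated by `P` and `J` -/
lemma gen (S : Subgroup G) (hP : D.P ≤ S) (hJ : D.J ∈ S) (g : G) : g ∈ S := by
  obtain ⟨n, hn⟩ : ∃ n, D.ht g = n := ⟨_, rfl⟩
  induction n using Nat.strong_induction_on generalizing g with
  | _ n IHn =>
    by_cases h0 : D.ht g = 0
    · exact hP (D.ht0 g h0)
    · obtain ⟨v, hv⟩ := D.desc g h0
      have eg : g = (D.T v : G) * (D.J * (D.J * (D.T (-v) : G) * g)) := by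
        simp only [mul_assoc, D.JJ, D.T_cancel]
      rw [eg]
      exact S.mul_mem (hP (D.T v).2) (S.mul_mem hJ
        (IHn _ (by rw [← hn]; exact hv) (D.J * (D.T (-v) : G) * g) rfl))

end MP55F
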