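import Pool.Agent.Lib_MP_55d5ef_geo.GBas
import Pool.Agent.Lib_MP_55d5ef_f.Present

/-!
# The group of forward isometries of the lattice and its height function
-/

open Matrix

namespace MP55F

open Lib_MP_55d5ef_geo

/-- isometry of the lattice -/
def isomG (g : GL (Fin 5) ℤ) : Prop := ∀ v w : Fin 5 → ℤ, bf (g.1 *ᵥ v) (g.1 *ᵥ w) = bf v w

/-- preserves the forward cone -/
def fwdG (g : GL (Fin 5) ℤ) : Prop := 0 < (g.1 *ᵥ (p5 : Fin 5 → ℤ)) 4

lemma bf_toR_lt {v w : Fin 5 → ℤ} : bf (toR v) (toR w) < 0 ↔ bf v w < 0 := by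
  rw [bf_toR]; exact_mod_cast Iff.rfl

lemma fwdZ {v w : Fin 5 → ℤ} (hv : bf v v < 0) (hv4 : 0 < v 4) (hw : bf w w < 0) :
    bf v w < 0 ↔ 0 < w 4 := by
  have hv' := bf_toR_lt.mpr hv
  have hw' := bf_toR_lt.mpr hw
  have hv4' : (0:ℝ) < toR v 4 := by simp only [toR]; exact_mod_cast hv4
  constructor
  · intro h
    have := fwd_of_bf_neg hv' hv4' hw' (bf_toR_lt.mpr h)
    simp only [toR] at this
    exact_mod_cast this
  · intro h
    have h4' : (0:ℝ) < toR w 4 := by simp only [toR]; exact_mod_cast h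
    exact bf_toR_lt.mp (bf_neg_of_fwd hv' hv4' hw' h4')

lemma p5_neg : bf (p5 : Fin 5 → ℤ) p5 < 0 := by simp [bf, p5]

lemma p5_four : (0:ℤ) < (p5 : Fin 5 → ℤ) 4 := by simp [p5]

lemma bf_p5_img {g : GL (Fin 5) ℤ} (hg : isomG g) :
    bf (g.1 *ᵥ (p5 : Fin 5 → ℤ)) (g.1 *ᵥ p5) < 0 := by
  rw [hg]; exact p5_neg

/-- the group of forward isometries -/
def Gp : Subgroup (GL (Fin 5) ℤ) where
  carrier := {g | isomG g ∧ fwdG g}
  one_mem' := by
    refine ⟨fun v w => by simp, ?_⟩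
    simp [fwdG, p5]
  mul_mem' := by
    intro g h hg hh
    have hi : isomG (g * h) := by
      intro v w
      simp only [Units.val_mul, ← Matrix.mulVec_mulVec]
      rw [hg.1, hh.1]
    refine ⟨hi, ?_⟩
    have h1 : bf (g.1 *ᵥ (p5 : Fin 5 → ℤ)) ((g * h).1 *ᵥ p5) < 0 := by
      simp only [Units.val_mul, ← Matrix.mulVec_mulVec]
      rw [hg.1]
      exact (fwdZ p5_neg p5_four (bf_p5_img hh.1)).mpr hh.2
    exact (fwdZ (bf_p5_img hg.1) hg.2 (bf_p5_img hi)).mp h1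
  inv_mem' := by
    intro g hg
    have hi : isomG g⁻¹ := by
      intro v w
      rw [← hg.1]
      simp only [Matrix.mulVec_mulVec]
      have : g.1 * (g⁻¹).1 = 1 := by rw [← Units.val_mul, mul_inv_cancel]; rfl
      rw [this, Matrix.one_mulVec, Matrix.one_mulVec]
    refine ⟨hi, ?_⟩
    have h1 : bf (p5 : Fin 5 → ℤ) ((g⁻¹).1 *ᵥ p5) < 0 := by
      rw [← hg.1]
      simp only [Matrix.mulVec_mulVec]
      have : g.1 * (g⁻¹).1 = 1 := by rw [← Units.val_mul, mul_inv_cancel]; rfl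
      rw [this, Matrix.one_mulVec]
      have := (fwdZ p5_neg p5_four (bf_p5_img hg.1)).mpr hg.2
      rw [Lib_MP_55d5ef_geo.bf_comm]
      exact this
    exact (fwdZ p5_neg p5_four (bf_p5_img hi)).mp h1

lemma mem_Gp {g : GL (Fin 5) ℤ} : g ∈ Gp ↔ isomG g ∧ fwdG g := Iff.rfl

/-- the lattice `K` -/
abbrev KK := ℤ × ℤ × ℤ

lemma TM_mul (x y z x' y' z' : ℤ) :
    (TM x y z : Matrix (Fin 5) (Fin 5) ℤ) * TM x' y' z' = TM (x + x') (y + y') (z + z') := by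
  ext i j
  fin_cases i <;> fin_cases j <;>
    simp [TM, Matrix.mul_apply, Fin.sum_univ_five, qK] <;> ring

lemma TM_zero : (TM 0 0 0 : Matrix (Fin 5) (Fin 5) ℤ) = 1 := by
  ext i j
  fin_cases i <;> fin_cases j <;> simp [TM, qK]

lemma TM_mulVec (x y z : ℤ) (u : Fin 5 → ℤ) :
    (TM x y z : Matrix (Fin 5) (Fin 5) ℤ) *ᵥ u =
      ![u 0 + (2 * x - y - z) * u 1 + (2 * y - x) * u 2 + (4 * z - x) * u 3 + qK x y z * u 4,
        u 1 + x * u 4, u 2 + y * u 4, u 3 + z * u 4, u 4] := by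
  ext i
  fin_cases i <;> simp [TM, Matrix.mulVec, dotProduct, Fin.sum_univ_five]

/-- translation as a unit -/
def TU (m : KK) : GL (Fin 5) ℤ where
  val := TM m.1 m.2.1 m.2.2
  inv := TM (-m.1) (-m.2.1) (-m.2.2)
  val_inv := by rw [TM_mul]; simp only [add_neg_cancel]; exact TM_zero
  inv_val := by rw [TM_mul]; simp only [neg_add_cancel]; exact TM_zero

lemma TU_mem (m : KK) : TU m ∈ Gp := by
  refine ⟨fun v w => ?_, ?_⟩
  · simp only [TU, TM_mulVec, bf, qK]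
    simp only [Matrix.cons_val]
    ring
  · simp only [fwdG, TU, TM_mulVec, p5]
    simp

lemma TU_add (a b : KK) : TU (a + b) = TU a * TU b := by
  apply Units.ext
  simp only [Units.val_mul, TU, TM_mul, Prod.fst_add, Prod.snd_add]

/-- the swap of `e` and `f` -/
def JM : Matrix (Fin 5) (Fin 5) ℤ :=
  !![0, 0, 0, 0, 1; 0, 1, 0, 0, 0; 0, 0, 1, 0, 0; 0, 0, 0, 1, 0; 1, 0, 0, 0, 0]

lemma JM_mul : JM * JM = 1 := by decide +kernel

lemma JM_mulVec (u : Fin 5 → ℤ) : JM *ᵥ u = ![u 4, u 1, u 2, u 3, u 0] := by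
  ext i
  fin_cases i <;> simp [JM, Matrix.mulVec, dotProduct, Fin.sum_univ_five]

def JU : GL (Fin 5) ℤ where
  val := JM
  inv := JM
  val_inv := JM_mul
  inv_val := JM_mul

lemma JU_mem : JU ∈ Gp := by
  refine ⟨fun v w => ?_, ?_⟩
  · simp only [JU, JM_mulVec, bf]
    simp only [Matrix.cons_val]
    ring
  · simp only [fwdG, JU, JM_mulVec, p5]
    simp

/-- `J` in `Gp` -/
def JG : Gp := ⟨JU, JU_mem⟩

/-- the stabilizer of the base cusp -/
def PG : Subgroup Gp where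
  carrier := {g | g.1.1 *ᵥ (e5 : Fin 5 → ℤ) = e5}
  one_mem' := by simp
  mul_mem' := by
    intro a b ha hb
    simp only [Set.mem_setOf_eq, Subgroup.coe_mul, Units.val_mul, ← Matrix.mulVec_mulVec] at *
    rw [hb, ha]
  inv_mem' := by
    intro a ha
    simp only [Set.mem_setOf_eq] at *
    conv_lhs => rw [← ha]
    rw [Matrix.mulVec_mulVec]
    have : (a⁻¹).1.1 * a.1.1 = 1 := by
      rw [← Units.val_mul, ← Subgroup.coe_mul, inv_mul_cancel]; rfl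
    rw [this, Matrix.one_mulVec]

lemma mem_PG {g : Gp} : g ∈ PG ↔ g.1.1 *ᵥ (e5 : Fin 5 → ℤ) = e5 := Iff.rfl

lemma TU_e5 (m : KK) : (TU m).1 *ᵥ (e5 : Fin 5 → ℤ) = e5 := by
  simp only [TU, TM_mulVec, e5]
  ext i; fin_cases i <;> simp

/-- translations in `P` -/
def TP (m : KK) : PG := ⟨⟨TU m, TU_mem m⟩, TU_e5 m⟩

lemma TP_add (a b : KK) : TP (a + b) = TP a * TP b := by
  apply Subtype.ext; apply Subtype.ext
  exact TU_add a b

/-- the cusp vector of `g` -/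
def cu (g : Gp) : Fin 5 → ℤ := g.1.1 *ᵥ (e5 : Fin 5 → ℤ)

lemma cu_mul (g h : Gp) : cu (g * h) = g.1.1 *ᵥ cu h := by
  simp only [cu, Subgroup.coe_mul, Units.val_mul, Matrix.mulVec_mulVec]

lemma cu_iso (g : Gp) : bf (cu g) (cu g) = 0 := by
  unfold cu; rw [g.2.1]; simp [bf, e5]

lemma bf_e5' (v : Fin 5 → ℤ) : bf e5 v = - v 4 := by simp [bf, e5]

lemma cu_iso' (g : Gp) : qK (cu g 1) (cu g 2) (cu g 3) = cu g 0 * cu g 4 := by
  have := cu_iso g
  rw [bf_self] at this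
  linarith

lemma qK_nonnegZ (x y z : ℤ) : 0 ≤ qK x y z := by
  have h : 2 * qK x y z = (x - y) ^ 2 + (x - z) ^ 2 + y ^ 2 + 3 * z ^ 2 := by
    simp only [qK]; ring
  nlinarith [sq_nonneg (x - y), sq_nonneg (x - z), sq_nonneg y, sq_nonneg z]

lemma qK_zeroZ {x y z : ℤ} (h0 : qK x y z = 0) : x = 0 ∧ y = 0 ∧ z = 0 := by
  have h : 2 * qK x y z = (x - y) ^ 2 + (x - z) ^ 2 + y ^ 2 + 3 * z ^ 2 := by
    simp only [qK]; ring
  rw [h0] at h
  have hy : y ^ 2 = 0 := by nlinarith [sq_nonneg (x - y), sq_nonneg (x - z), sq_nonneg y, sq_nonneg z]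
  have hz : z ^ 2 = 0 := by nlinarith [sq_nonneg (x - y), sq_nonneg (x - z), sq_nonneg y, sq_nonneg z]
  have hx : (x - y) ^ 2 = 0 := by
    nlinarith [sq_nonneg (x - y), sq_nonneg (x - z), sq_nonneg y, sq_nonneg z]
  have hy' : y = 0 := by simpa using hy
  have hz' : z = 0 := by simpa using hz
  have hx' : x - y = 0 := by simpa using hx
  exact ⟨by omega, hy', hz'⟩

/-- the vector `f` -/
def f5 : Fin 5 → ℤ := ![0, 0, 0, 0, 1]

/-- the height is nonnegative -/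
lemma cu_nonneg (g : Gp) : 0 ≤ cu g 4 := by
  -- `bf (g p5) (cu g) = bf p5 e5 = -1`
  have h1 : bf (g.1.1 *ᵥ (p5 : Fin 5 → ℤ)) (cu g) = -1 := by
    unfold cu; rw [g.2.1]; simp [bf, p5, e5]
  have h2 := bf_p5_img g.2.1
  have h3 : 0 < (g.1.1 *ᵥ (p5 : Fin 5 → ℤ)) 4 := g.2.2
  have hi := cu_iso' g
  set w := g.1.1 *ᵥ (p5 : Fin 5 → ℤ) with hw
  set u := cu g with hu
  by_contra hneg
  have hneg : u 4 < 0 := not_le.mp hneg
  have hq := qK_nonnegZ (u 1) (u 2) (u 3)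
  rw [hi] at hq
  have hu0 : u 0 ≤ 0 := by
    by_contra h; have h := not_le.mp h; nlinarith
  -- `y = -u + small`: use y := -(u) + (-1)…; direct Cauchy–Schwarz
  have hq2 := qK_nonnegZ (w 1) (w 2) (w 3)
  rw [bf_self] at h2
  have hw0 : 0 < w 0 := by
    by_contra h; have h := not_lt.mp h; nlinarith
  have cs := cs_K (w 1 : ℝ) (w 2) (w 3) (u 1) (u 2) (u 3)
  have csZ : (2 * (w 1 * u 1) + 2 * (w 2 * u 2) + 4 * (w 3 * u 3) - (w 1 * u 2 + w 2 * u 1)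
      - (w 1 * u 3 + w 3 * u 1)) ^ 2 ≤ (2 * qK (w 1) (w 2) (w 3)) * (2 * qK (u 1) (u 2) (u 3)) := by
    have e1 : (qK (w 1 : ℝ) (w 2) (w 3)) = ((qK (w 1) (w 2) (w 3) : ℤ) : ℝ) := by
      simp only [qK]; push_cast; ring
    have e2 : (qK (u 1 : ℝ) (u 2) (u 3)) = ((qK (u 1) (u 2) (u 3) : ℤ) : ℝ) := by
      simp only [qK]; push_cast; ring
    rw [e1, e2] at cs
    exact_mod_cast cs
  set C := 2 * (w 1 * u 1) + 2 * (w 2 * u 2) + 4 * (w 3 * u 3) - (w 1 * u 2 + w 2 * u 1)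
      - (w 1 * u 3 + w 3 * u 1) with hC
  have e : bf w u = C - (w 0 * u 4 + w 4 * u 0) := by simp only [bf, hC]
  rw [e] at h1
  -- C = -1 + (w0 u4 + w4 u0), both terms ≤ 0, first < 0
  have hA : 0 ≤ -(w 4 * u 0) := by nlinarith
  have hB : 0 < -(w 0 * u 4) := by nlinarith
  rw [hi] at csZ
  have hq3 : qK (w 1) (w 2) (w 3) * (u 0 * u 4) ≤ (w 0 * w 4) * (u 0 * u 4) := by
    apply mul_le_mul_of_nonneg_right _ hq
    linarith
  have hC2 : C = -1 + (w 0 * u 4 + w 4 * u 0) := by linarith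
  have : (1 + (-(w 0 * u 4)) + (-(w 4 * u 0))) ^ 2 ≤ 4 * ((-(w 0 * u 4)) * (-(w 4 * u 0))) := by
    have e5 : (1 + (-(w 0 * u 4)) + (-(w 4 * u 0))) ^ 2 = C ^ 2 := by rw [hC2]; ring
    rw [e5]
    nlinarith
  nlinarith [sq_nonneg ((-(w 0 * u 4)) - (-(w 4 * u 0)))]

/-- the height -/
def ht (g : Gp) : ℕ := (cu g 4).toNat

lemma ht_cast (g : Gp) : (ht g : ℤ) = cu g 4 := Int.toNat_of_nonneg (cu_nonneg g)

lemma ht_P (s : PG) (g : Gp) : ht ((s : Gp) * g) = ht g := by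
  have : cu ((s : Gp) * g) 4 = cu g 4 := by
    have h1 := bf_e5' (cu ((s : Gp) * g))
    have h2 := bf_e5' (cu g)
    rw [cu_mul] at h1
    have h3 : (s : Gp).1.1 *ᵥ (e5 : Fin 5 → ℤ) = e5 := s.2
    have h4 : bf (e5 : Fin 5 → ℤ) ((s : Gp).1.1 *ᵥ cu g) = bf e5 (cu g) := by
      conv_lhs => rw [← h3]
      exact (s : Gp).2.1 _ _
    rw [cu_mul]
    rw [h4, h2] at h1
    linarith
  unfold ht; rw [this]

lemma ht_one : ht 1 = 0 := by
  simp [ht, cu, e5]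

lemma ht0 (g : Gp) (h : ht g = 0) : g ∈ PG := by
  have h4 : cu g 4 = 0 := by
    have := ht_cast g; rw [h] at this; simpa using this.symm
  have hi := cu_iso' g
  rw [h4, mul_zero] at hi
  obtain ⟨h1, h2, h3⟩ := qK_zeroZ hi
  have h5 : bf (g.1.1 *ᵥ (p5 : Fin 5 → ℤ)) (cu g) = -1 := by
    unfold cu; rw [g.2.1]; simp [bf, p5, e5]
  have h6 : 0 < (g.1.1 *ᵥ (p5 : Fin 5 → ℤ)) 4 := g.2.2
  set w := g.1.1 *ᵥ (p5 : Fin 5 → ℤ) with hw
  have h7 : w 4 * cu g 0 = 1 := by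
    simp only [bf, h1, h2, h3, h4] at h5
    linarith
  have h0 : cu g 0 = 1 := by
    have := Int.eq_one_or_neg_one_of_mul_eq_one' h7
    rcases this with h | h
    · exact h.2
    · omega
  rw [mem_PG]
  change cu g = e5
  ext i
  fin_cases i
  · simpa [e5] using h0
  · simpa [e5] using h1
  · simpa [e5] using h2
  · simpa [e5] using h3
  · simpa [e5] using h4

/-- height after one step: the quadratic function of the centre -/
lemma cu_step (g : Gp) (v : KK) : cu (JG * (TP v : Gp) * g) 4 =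
    cu g 0 + (2 * v.1 - v.2.1 - v.2.2) * cu g 1 + (2 * v.2.1 - v.1) * cu g 2
      + (4 * v.2.2 - v.1) * cu g 3 + qK v.1 v.2.1 v.2.2 * cu g 4 := by
  rw [mul_assoc, cu_mul, cu_mul]
  change (JM *ᵥ (TM v.1 v.2.1 v.2.2 *ᵥ cu g)) 4 = _
  rw [JM_mulVec, TM_mulVec]
  simp

lemma J_not_mem : JG ∉ PG := by
  intro h
  rw [mem_PG] at h
  have := congrFun h 4
  change (JM *ᵥ (e5 : Fin 5 → ℤ)) 4 = _ at this
  rw [JM_mulVec] at this
  simp [e5] at this

lemma J2 : JG * JG = 1 := by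
  apply Subtype.ext; apply Units.ext
  exact JM_mul

end MP55F
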