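import Pool.Agent.Lib_MP_55d5ef_f.Om

/-!
# The action of the lattice group on `Ω = (K / Λ') × O(K)`
-/

open Matrix

namespace MP55F

open Lib_MP_55d5ef_geo

/-- the matrix of an element of `P` -/
abbrev mP (s : PG) : Matrix (Fin 5) (Fin 5) ℤ := (s : Gp).1.1

lemma mP_col0 (s : PG) (i : Fin 5) : mP s i 0 = (e5 : Fin 5 → ℤ) i := by
  have h : mP s *ᵥ (e5 : Fin 5 → ℤ) = e5 := s.2
  have := congrFun h i
  simp only [Matrix.mulVec, dotProduct, Fin.sum_univ_five, e5] at this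
  simp at this
  exact this

lemma mP_four (s : PG) (w : Fin 5 → ℤ) : (mP s *ᵥ w) 4 = w 4 := by
  have hs : mP s *ᵥ (e5 : Fin 5 → ℤ) = e5 := s.2
  have h1 := (s : Gp).2.1 e5 w
  rw [hs, bf_e5', bf_e5'] at h1
  linarith

lemma mP_row4 (s : PG) (j : Fin 5) : mP s 4 j = if j = 4 then 1 else 0 := by
  have h := mP_four s (Pi.single j 1)
  rw [Matrix.mulVec_single_one, Matrix.col_apply] at h
  rw [h]
  fin_cases j <;> simp

/-- linear part -/
def lnM (s : PG) : M3 :=
  !![mP s 1 1, mP s 1 2, mP s 1 3; mP s 2 1, mP s 2 2, mP s 2 3; mP s 3 1, mP s 3 2, mP s 3 3]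

/-- translation part -/
def trV (s : PG) : KK := (mP s 1 4, mP s 2 4, mP s 3 4)

lemma mP_mul (s t : PG) : mP (s * t) = mP s * mP t := rfl

lemma lnM_mul (s t : PG) : lnM (s * t) = lnM s * lnM t := by
  have c1 := mP_col0 s 1
  have c2 := mP_col0 s 2
  have c3 := mP_col0 s 3
  have r1 := mP_row4 t 1
  have r2 := mP_row4 t 2
  have r3 := mP_row4 t 3
  simp [e5] at c1 c2 c3 r1 r2 r3
  ext i j
  fin_cases i <;> fin_cases j <;>
    simp [lnM, mP_mul, Matrix.mul_apply, Fin.sum_univ_five, Fin.sum_univ_three, c1, c2, c3,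
      r1, r2, r3]

lemma trV_mul (s t : PG) : trV (s * t) = trV s + mv (lnM s) (trV t) := by
  have c1 := mP_col0 s 1
  have c2 := mP_col0 s 2
  have c3 := mP_col0 s 3
  have r4 := mP_row4 t 4
  simp [e5] at c1 c2 c3 r4
  unfold trV mv
  simp only [mP_mul, Matrix.mul_apply, Fin.sum_univ_five, c1, c2, c3, r4, lnM]
  refine Prod.ext ?_ (Prod.ext ?_ ?_) <;> simp <;> ring

lemma lnM_one : lnM 1 = 1 := by
  ext i j
  fin_cases i <;> fin_cases j <;> simp [lnM, mP]

lemma trV_one : trV 1 = 0 := by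
  simp [trV, mP]

lemma lnM_mem (s : PG) : lnM s ∈ OKm := by
  rw [mem_OKm]
  have c1 := mP_col0 s 1
  have r1 := mP_row4 s 1
  have r2 := mP_row4 s 2
  have r3 := mP_row4 s 3
  simp at r1 r2 r3
  have h := (s : Gp).2.1
  have h' : ∀ i j : Fin 5, bf ((mP s).col i) ((mP s).col j)
      = bf (Pi.single i 1 : Fin 5 → ℤ) (Pi.single j 1) := by
    intro i j
    rw [← Matrix.mulVec_single_one, ← Matrix.mulVec_single_one]
    exact h _ _
  have h11 := h' 1 1
  have h12 := h' 1 2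
  have h13 := h' 1 3
  have h22 := h' 2 2
  have h23 := h' 2 3
  have h33 := h' 3 3
  simp only [bf, Matrix.col_apply, r1, r2, r3] at h11 h12 h13 h22 h23 h33
  simp at h11 h12 h13 h22 h23 h33
  ext i j
  fin_cases i <;> fin_cases j <;>
    simp [lnM, KM, Matrix.mul_apply, Fin.sum_univ_three, Matrix.transpose_apply] <;> linarith

/-- the coset space -/
abbrev Om := (ZMod 2 × ZMod 20) × OKm

/-- the right action of `P` -/
def ra (ω : Om) (s : PG) : Om := (ω.1 + ph (mv ω.2.1 (trV s)), ω.2 * ⟨lnM s, lnM_mem s⟩)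

lemma ra_mul (ω : Om) (s t : PG) : ra ω (s * t) = ra (ra ω s) t := by
  unfold ra
  refine Prod.ext ?_ ?_
  · simp only [trV_mul, mv_add, ph_add, Submonoid.coe_mul, mv_mul, add_assoc]
  · apply Subtype.ext
    simp only [lnM_mul, Submonoid.coe_mul, Matrix.mul_assoc]

lemma ra_one (ω : Om) : ra ω 1 = ω := by
  unfold ra
  refine Prod.ext ?_ ?_
  · simp only [trV_one]
    have : mv ω.2.1 0 = 0 := by simp [mv]
    rw [this, ph_zero, add_zero]
  · apply Subtype.ext
    simp only [lnM_one, Submonoid.coe_mul, Matrix.mul_one]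

/-- the left action of `P` by permutations -/
def πP : PG →* Equiv.Perm Om where
  toFun s :=
    { toFun := fun ω => ra ω s⁻¹
      invFun := fun ω => ra ω s
      left_inv := fun ω => by
        change ra (ra ω s⁻¹) s = ω
        rw [← ra_mul, inv_mul_cancel, ra_one]
      right_inv := fun ω => by
        change ra (ra ω s) s⁻¹ = ω
        rw [← ra_mul, mul_inv_cancel, ra_one] }
  map_one' := by
    ext1 ω
    change ra ω (1 : PG)⁻¹ = ω
    rw [inv_one, ra_one]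
  map_mul' := by
    intro s t
    ext1 ω
    change ra ω (s * t)⁻¹ = ra (ra ω t⁻¹) s⁻¹
    rw [_root_.mul_inv_rev, ra_mul]

lemma πP_apply (s : PG) (ω : Om) : πP s ω = ra ω s⁻¹ := rfl

lemma rc_mem (c : ZMod 2 × ZMod 20) : rc c ∈ OKm := LO_mem _ (rk_mem _)

/-- the gluing involution as a function -/
def jf (ω : Om) : Om := (jc ω.1, ⟨rc ω.1, rc_mem ω.1⟩ * ω.2)

lemma jf_jf (ω : Om) : jf (jf ω) = ω := by
  unfold jf
  refine Prod.ext ?_ ?_
  · exact jc_jc ω.1
  · apply Subtype.ext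
    simp only [Submonoid.coe_mul]
    rw [← Matrix.mul_assoc, rc_rc, Matrix.one_mul]

/-- the gluing involution -/
def jP : Equiv.Perm Om where
  toFun := jf
  invFun := jf
  left_inv := jf_jf
  right_inv := jf_jf

lemma jP_apply (ω : Om) : jP ω = jf ω := rfl

lemma TP_inv (m : KK) : (TP m)⁻¹ = TP (-m) := by
  have h := TP_add (-m) m
  have h0 : TP 0 = 1 := by
    have h := TP_add 0 0
    rw [add_zero] at h
    exact (left_eq_mul.mp h)
  rw [neg_add_cancel, h0] at h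
  exact (eq_inv_of_mul_eq_one_left h.symm).symm

lemma lnM_TP (m : KK) : lnM (TP m) = 1 := by
  ext i j
  fin_cases i <;> fin_cases j <;> rfl

lemma trV_TP (m : KK) : trV (TP m) = m := rfl

lemma πT (m : KK) (ω : Om) : πP (TP m) ω = (ω.1 - ph (mv ω.2.1 m), ω.2) := by
  rw [πP_apply, TP_inv]
  unfold ra
  refine Prod.ext ?_ ?_
  · simp only [trV_TP, mv_neg, ph_neg]
    rw [sub_eq_add_neg]
  · apply Subtype.ext
    simp only [lnM_TP, Submonoid.coe_mul, Matrix.mul_one]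

lemma SP1_inv : SP1⁻¹ = SP1 := rfl
lemma SP2_inv : SP2⁻¹ = SP2 := rfl
lemma SP3_inv : SP3⁻¹ = SP3 := rfl

lemma σP_inv (m : KK) : (σP m)⁻¹ = σP m := by
  unfold σP
  split_ifs
  · exact SP1_inv
  · exact SP2_inv
  · exact SP3_inv

lemma lnM_SP1 : lnM SP1 = rk 0 := by
  ext i j
  fin_cases i <;> fin_cases j <;> rfl

lemma lnM_SP2 : lnM SP2 = rk 2 := by
  ext i j
  fin_cases i <;> fin_cases j <;> rfl

lemma lnM_SP3 : lnM SP3 = rk 1 := by
  ext i j
  fin_cases i <;> fin_cases j <;> rfl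

lemma trV_SP1 : trV SP1 = 0 := rfl
lemma trV_SP2 : trV SP2 = 0 := rfl
lemma trV_SP3 : trV SP3 = 0 := rfl

lemma lnM_σP (m : KK) : lnM (σP m) = rf m := by
  unfold σP rf
  split_ifs
  · rw [lnM_SP1]; simp [rk]
  · rw [lnM_SP2]; simp [rk]
  · rw [lnM_SP3]; simp [rk]

lemma trV_σP (m : KK) : trV (σP m) = 0 := by
  unfold σP
  split_ifs
  · exact trV_SP1
  · exact trV_SP2
  · exact trV_SP3

lemma mv_zero (R : M3) : mv R 0 = 0 := by simp [mv]

lemma πσ (m : KK) (ω : Om) : πP (σP m) ω = (ω.1, ω.2 * ⟨lnM (σP m), lnM_mem _⟩) := by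
  rw [πP_apply, σP_inv]
  unfold ra
  rw [trV_σP, mv_zero, ph_zero, add_zero]

lemma ph_add_mv_neg (R : M3) (m : KK) : ph (mv R (-m)) = - ph (mv R m) := by
  rw [mv_neg, ph_neg]

lemma commP (s : PG) (hs : (s : Gp) * JG = JG * s) : πP s * jP = jP * πP s := by
  -- the translation part of `s⁻¹` vanishes
  have hi : (s⁻¹ : PG).1 * JG = JG * (s⁻¹ : PG).1 := by
    rw [Subgroup.coe_inv]
    have := congrArg (fun x => (s : Gp)⁻¹ * x * (s : Gp)⁻¹) hs
    simp only [mul_assoc, inv_mul_cancel_left, mul_inv_cancel, mul_one] at this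
    exact this.symm
  have ht : trV s⁻¹ = 0 := by
    have h1 : (s⁻¹ : PG).1.1.1 *ᵥ (JM *ᵥ (e5 : Fin 5 → ℤ)) = JM *ᵥ ((s⁻¹ : PG).1.1.1 *ᵥ e5) := by
      have := congrArg (fun g : Gp => g.1.1 *ᵥ (e5 : Fin 5 → ℤ)) hi
      simp only [Subgroup.coe_mul, Units.val_mul, ← Matrix.mulVec_mulVec] at this
      exact this
    have h2 : (s⁻¹ : PG).1.1.1 *ᵥ (e5 : Fin 5 → ℤ) = e5 := (s⁻¹ : PG).2
    rw [h2] at h1
    have hf : JM *ᵥ (e5 : Fin 5 → ℤ) = Pi.single 4 1 := by
      rw [JM_mulVec]; ext i; fin_cases i <;> simp [e5]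
    rw [hf, Matrix.mulVec_single_one] at h1
    have a1 : mP s⁻¹ 1 4 = 0 := by
      have a := congrFun h1 1
      rw [Matrix.col_apply] at a
      exact a
    have a2 : mP s⁻¹ 2 4 = 0 := by
      have a := congrFun h1 2
      rw [Matrix.col_apply] at a
      exact a
    have a3 : mP s⁻¹ 3 4 = 0 := by
      have a := congrFun h1 3
      rw [Matrix.col_apply] at a
      exact a
    unfold trV
    refine Prod.ext ?_ (Prod.ext ?_ ?_)
    · exact a1
    · exact a2
    · exact a3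
  ext1 ω
  change ra (jf ω) s⁻¹ = jf (ra ω s⁻¹)
  unfold ra jf
  simp only [ht, mv_zero, ph_zero, add_zero]
  refine Prod.ext rfl ?_
  simp only [mul_assoc]

lemma B2P (m : KK) (hm : m ∈ L2) :
    jP * πP (TP m) * jP = πP (TP m) * jP * πP (TP (-m)) * πP (σP m) := by
  ext1 ω
  obtain ⟨c, R⟩ := ω
  obtain ⟨h1, h2⟩ := rf_conj0 R.1 (mem_LO R.2) m hm
  obtain ⟨k1, k2⟩ := chk2 c (mv R.1 m) h1
  have hneg : mv (rf m) m = -m := rf_neg m hm
  simp only [Equiv.Perm.coe_mul, Function.comp_apply, jP_apply, jf, πσ, πT, Submonoid.coe_mul,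
    lnM_σP, mv_mul, mv_neg, hneg, ph_neg, neg_neg, sub_neg_eq_add]
  refine Prod.ext ?_ ?_
  · exact k1
  · apply Subtype.ext
    simp only [Submonoid.coe_mul]
    rw [← Matrix.mul_assoc, k2, Matrix.mul_assoc, h2]

lemma B4P (m : KK) (hm : m ∈ L4) :
    jP * πP (TP m) * jP = πP (TP m) * jP * πP (TP (-m)) * jP * πP (TP m) := by
  ext1 ω
  obtain ⟨c, R⟩ := ω
  have h1 := L4_img0 R.1 (mem_LO R.2) m hm
  obtain ⟨k1, k2⟩ := chk4 c (mv R.1 m) h1
  simp only [Equiv.Perm.coe_mul, Function.comp_apply, jP_apply, jf, πT, Submonoid.coe_mul,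
    mv_mul, mv_neg, ph_neg, sub_neg_eq_add]
  refine Prod.ext ?_ ?_
  · exact k1
  · apply Subtype.ext
    simp only [Submonoid.coe_mul]
    rw [← Matrix.mul_assoc, k2, Matrix.mul_assoc]

/-- the target data -/
def TDa : TData HD (Equiv.Perm Om) where
  π := πP
  j := jP
  j2 := by
    ext1 ω
    exact jf_jf ω
  comm := commP
  B2 := fun m hm => B2P m hm
  B4 := fun m hm => B4P m hm

/-- **the action of the lattice group on `Ω`** -/
noncomputable def actΩ : Gp →* Equiv.Perm Om := ext TDa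

lemma actΩ_P (s : PG) (ω : Om) : actΩ (s : Gp) ω = ra ω s⁻¹ := by
  have := ext_P TDa s
  change actΩ (s : Gp) = πP s at this
  rw [this, πP_apply]

lemma actΩ_J (ω : Om) : actΩ JG ω = jf ω := by
  have := ext_J TDa
  change actΩ JG = jP at this
  rw [this, jP_apply]

lemma actΩ_T (m : KK) (ω : Om) : actΩ (TP m : Gp) ω = (ω.1 - ph (mv ω.2.1 m), ω.2) := by
  rw [actΩ_P, ← πP_apply, πT]

end MP55F
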