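import Pool.Agent.Lib_MP_55d5ef_f.Hyp

/-!
# Exchange property and the instance of `HData`
-/

open Matrix

namespace MP55F

open Lib_MP_55d5ef_geo

/-- the `ℓ¹`-measure in root coordinates -/
def muK (d : KK) : ℕ :=
  (d.1 - d.2.1).natAbs + d.2.1.natAbs + d.2.2.natAbs + (d.2.2 - d.1).natAbs

lemma exch_root (d : KK) (hd : d ≠ 0) : ∃ r ∈ {m | m ∈ L2} ∪ {m | m ∈ L4},
    muK (d - r) < muK d ∧
    0 ≤ (2 * (d.1 - r.1) - (d.2.1 - r.2.1) - (d.2.2 - r.2.2)) * r.1
      + (2 * (d.2.1 - r.2.1) - (d.1 - r.1)) * r.2.1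
      + (4 * (d.2.2 - r.2.2) - (d.1 - r.1)) * r.2.2 := by
  obtain ⟨x, y, z⟩ := d
  have key : ∀ r : KK, r ∈ L2 ∨ r ∈ L4 → (muK ((x, y, z) - r) < muK (x, y, z) ∧
    0 ≤ (2 * (x - r.1) - (y - r.2.1) - (z - r.2.2)) * r.1
      + (2 * (y - r.2.1) - (x - r.1)) * r.2.1
      + (4 * (z - r.2.2) - (x - r.1)) * r.2.2) → ∃ r ∈ {m | m ∈ L2} ∪ {m | m ∈ L4},
    muK ((x, y, z) - r) < muK (x, y, z) ∧
    0 ≤ (2 * (x - r.1) - (y - r.2.1) - (z - r.2.2)) * r.1
      + (2 * (y - r.2.1) - (x - r.1)) * r.2.1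
      + (4 * (z - r.2.2) - (x - r.1)) * r.2.2 := by
    intro r hr h
    exact ⟨r, hr, h⟩
  have hne : ¬ (x = 0 ∧ y = 0 ∧ z = 0) := by
    rintro ⟨rfl, rfl, rfl⟩; exact hd rfl
  -- t1 = x - y, t2 = y, t3 = -z, t4 = z - x
  rcases lt_trichotomy (x - y) 0 with h1 | h1 | h1
  · -- t1 < 0 : need a positive one
    by_cases h2 : 0 < y
    · exact key (0, 1, 0) (by decide) ⟨by simp only [muK, Prod.mk_sub_mk]; omega, by simp only; omega⟩
    · by_cases h3 : z < 0
      · exact key (-1, 0, -1) (by decide) ⟨by simp only [muK, Prod.mk_sub_mk]; omega, by simp only; omega⟩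
      · exact key (-1, 0, 0) (by decide) ⟨by simp only [muK, Prod.mk_sub_mk]; omega, by simp only; omega⟩
  · rcases lt_trichotomy y 0 with h2 | h2 | h2
    · by_cases h3 : z < 0
      · exact key (-1, -1, -1) (by decide) ⟨by simp only [muK, Prod.mk_sub_mk]; omega, by simp only; omega⟩
      · exact key (-1, -1, 0) (by decide) ⟨by simp only [muK, Prod.mk_sub_mk]; omega, by simp only; omega⟩
    · rcases lt_trichotomy z 0 with h3 | h3 | h3
      · exact key (0, 0, -1) (by decide) ⟨by simp only [muK, Prod.mk_sub_mk]; omega, by simp only; omega⟩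
      · exfalso; apply hne; omega
      · exact key (0, 0, 1) (by decide) ⟨by simp only [muK, Prod.mk_sub_mk]; omega, by simp only; omega⟩
    · by_cases h3 : 0 < z
      · exact key (1, 1, 1) (by decide) ⟨by simp only [muK, Prod.mk_sub_mk]; omega, by simp only; omega⟩
      · exact key (1, 1, 0) (by decide) ⟨by simp only [muK, Prod.mk_sub_mk]; omega, by simp only; omega⟩
  · by_cases h2 : y < 0
    · exact key (0, -1, 0) (by decide) ⟨by simp only [muK, Prod.mk_sub_mk]; omega, by simp only; omega⟩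
    · by_cases h3 : 0 < z
      · exact key (1, 0, 1) (by decide) ⟨by simp only [muK, Prod.mk_sub_mk]; omega, by simp only; omega⟩
      · exact key (1, 0, 0) (by decide) ⟨by simp only [muK, Prod.mk_sub_mk]; omega, by simp only; omega⟩

lemma exchP (d : KK) (hd : d ≠ 0) : ∃ r ∈ {m | m ∈ L2} ∪ {m | m ∈ L4},
    muK (d - r) < muK d ∧ ∀ (g : Gp) (k : KK),
    ht (JG * (TP (-(k - r)) : Gp) * g) + ht (JG * (TP (-(k - d + r)) : Gp) * g)
      ≤ ht (JG * (TP (-k) : Gp) * g) + ht (JG * (TP (-(k - d)) : Gp) * g) := by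
  obtain ⟨r, hr, hμ, hpos⟩ := exch_root d hd
  refine ⟨r, hr, hμ, fun g k => ?_⟩
  have hb : 0 ≤ cu g 4 := cu_nonneg g
  have : (ht (JG * (TP (-(k - r)) : Gp) * g) : ℤ) + ht (JG * (TP (-(k - d + r)) : Gp) * g)
      ≤ ht (JG * (TP (-k) : Gp) * g) + ht (JG * (TP (-(k - d)) : Gp) * g) := by
    simp only [ht_cast, cu_step]
    obtain ⟨d1, d2, d3⟩ := d
    obtain ⟨r1, r2, r3⟩ := r
    obtain ⟨k1, k2, k3⟩ := k
    simp only [Prod.mk_sub_mk, Prod.mk_add_mk, Prod.neg_mk, qK] at hpos ⊢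
    nlinarith [mul_nonneg hb hpos]
  exact_mod_cast this

lemma ht4P (m : KK) (hm : m ∈ L4) (x : Gp) : ht (JG * (TP (-m) : Gp) * JG * x) + ht x
    = ht (JG * (TP (-m) : Gp) * x) + ht (JG * x) := by
  have e1 : JG * (TP (-m) : Gp) * JG * x = JG * (TP (-m) : Gp) * (JG * x) := by
    simp only [mul_assoc]
  have hJ : cu (JG * x) = ![cu x 4, cu x 1, cu x 2, cu x 3, cu x 0] := by
    rw [cu_mul]; exact JM_mulVec _
  have hq : qK m.1 m.2.1 m.2.2 = 2 := by
    fin_cases hm <;> decide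
  have hq' : qK (-m).1 (-m).2.1 (-m).2.2 = 2 := by
    fin_cases hm <;> decide
  have : (ht (JG * (TP (-m) : Gp) * JG * x) : ℤ) + ht x
    = ht (JG * (TP (-m) : Gp) * x) + ht (JG * x) := by
    rw [e1]
    simp only [ht_cast, cu_step, hJ, hq']
    simp only [Matrix.cons_val]
    ring
  exact_mod_cast this

/-- the lattice instance -/
def HD : HData Gp KK where
  P := PG
  J := JG
  T := TP
  ht := ht
  μ := muK
  R2 := {m | m ∈ L2}
  R4 := {m | m ∈ L4}
  σ := σP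
  T_add := TP_add
  J2 := J2
  J_not_mem := J_not_mem
  ht_P := ht_P
  ht0 := ht0
  ht_one := ht_one
  desc := desc
  conj := conjP
  A2 := fun m hm => A2P m hm
  A4 := fun m hm => A4P m hm
  neg2 := fun m hm => neg2 m hm
  neg4 := fun m hm => neg4 m hm
  ht4 := fun m hm x => ht4P m hm x
  exch := exchP

end MP55F
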