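import Pool.Agent.Lib_MP_55d5ef_f.Grp

/-!
# The lattice group satisfies the hypotheses of the descent presentation theorem
-/

open Matrix

namespace MP55F

open Lib_MP_55d5ef_geo

/-- the six vectors of norm 2 -/
def L2 : List KK := [(1, 0, 0), (-1, 0, 0), (0, 1, 0), (0, -1, 0), (1, 1, 0), (-1, -1, 0)]

/-- the six vectors of norm 4 -/
def L4 : List KK := [(0, 0, 1), (0, 0, -1), (1, 0, 1), (-1, 0, -1), (1, 1, 1), (-1, -1, -1)]

/-- the reflections of `K`, as 5 by 5 matrices -/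
def S1 : Matrix (Fin 5) (Fin 5) ℤ :=
  !![1, 0, 0, 0, 0; 0, -1, 1, 1, 0; 0, 0, 1, 0, 0; 0, 0, 0, 1, 0; 0, 0, 0, 0, 1]

def S2 : Matrix (Fin 5) (Fin 5) ℤ :=
  !![1, 0, 0, 0, 0; 0, 1, 0, 0, 0; 0, 1, -1, 0, 0; 0, 0, 0, 1, 0; 0, 0, 0, 0, 1]

def S3 : Matrix (Fin 5) (Fin 5) ℤ :=
  !![1, 0, 0, 0, 0; 0, 0, -1, 1, 0; 0, -1, 0, 1, 0; 0, 0, 0, 1, 0; 0, 0, 0, 0, 1]

def SU1 : GL (Fin 5) ℤ := ⟨S1, S1, by decide +kernel, by decide +kernel⟩
def SU2 : GL (Fin 5) ℤ := ⟨S2, S2, by decide +kernel, by decide +kernel⟩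
def SU3 : GL (Fin 5) ℤ := ⟨S3, S3, by decide +kernel, by decide +kernel⟩

lemma S1_mulVec (u : Fin 5 → ℤ) : S1 *ᵥ u = ![u 0, -u 1 + u 2 + u 3, u 2, u 3, u 4] := by
  ext i
  fin_cases i <;> simp [S1, Matrix.mulVec, dotProduct, Fin.sum_univ_five]

lemma S2_mulVec (u : Fin 5 → ℤ) : S2 *ᵥ u = ![u 0, u 1, u 1 - u 2, u 3, u 4] := by
  ext i
  fin_cases i <;> simp [S2, Matrix.mulVec, dotProduct, Fin.sum_univ_five] <;> ring

lemma S3_mulVec (u : Fin 5 → ℤ) : S3 *ᵥ u = ![u 0, -u 2 + u 3, -u 1 + u 3, u 3, u 4] := by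
  ext i
  fin_cases i <;> simp [S3, Matrix.mulVec, dotProduct, Fin.sum_univ_five]

lemma SU1_mem : SU1 ∈ Gp := by
  refine ⟨fun v w => ?_, ?_⟩
  · simp only [SU1, S1_mulVec, bf]
    simp only [Matrix.cons_val]
    ring
  · simp only [fwdG, SU1, S1_mulVec, p5]
    simp

lemma SU2_mem : SU2 ∈ Gp := by
  refine ⟨fun v w => ?_, ?_⟩
  · simp only [SU2, S2_mulVec, bf]
    simp only [Matrix.cons_val]
    ring
  · simp only [fwdG, SU2, S2_mulVec, p5]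
    simp

lemma SU3_mem : SU3 ∈ Gp := by
  refine ⟨fun v w => ?_, ?_⟩
  · simp only [SU3, S3_mulVec, bf]
    simp only [Matrix.cons_val]
    ring
  · simp only [fwdG, SU3, S3_mulVec, p5]
    simp

def SP1 : PG := ⟨⟨SU1, SU1_mem⟩, by
  rw [mem_PG]; change S1 *ᵥ _ = _; rw [S1_mulVec]; ext i; fin_cases i <;> simp [e5]⟩
def SP2 : PG := ⟨⟨SU2, SU2_mem⟩, by
  rw [mem_PG]; change S2 *ᵥ _ = _; rw [S2_mulVec]; ext i; fin_cases i <;> simp [e5]⟩
def SP3 : PG := ⟨⟨SU3, SU3_mem⟩, by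
  rw [mem_PG]; change S3 *ᵥ _ = _; rw [S3_mulVec]; ext i; fin_cases i <;> simp [e5]⟩

/-- the reflection attached to a vector of norm 2 -/
def σP (m : KK) : PG :=
  if m = (1, 0, 0) ∨ m = (-1, 0, 0) then SP1
  else if m = (0, 1, 0) ∨ m = (0, -1, 0) then SP2 else SP3

/-- Babai rounding -/
lemma round_div (b κ : ℤ) (hb : 0 < b) : ∃ c : ℤ, 4 * (b * c - κ) ^ 2 ≤ b ^ 2 := by
  refine ⟨(2 * κ + b) / (2 * b), ?_⟩
  have h1 := Int.emod_add_mul_ediv (2 * κ + b) (2 * b)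
  have h2 := Int.emod_nonneg (2 * κ + b) (show 2 * b ≠ 0 by omega)
  have h3 := Int.emod_lt_of_pos (2 * κ + b) (show 0 < 2 * b by omega)
  set r := (2 * κ + b) % (2 * b)
  set c := (2 * κ + b) / (2 * b)
  have e : 2 * (b * c - κ) = b - r := by linarith
  have : (2 * (b * c - κ)) ^ 2 ≤ b ^ 2 := by
    rw [e]; nlinarith
  linarith

lemma cover (b x y z : ℤ) (hb : 0 < b) :
    ∃ c1 c2 c3 : ℤ, qK (b * c1 - x) (b * c2 - y) (b * c3 - z) < b ^ 2 := by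
  obtain ⟨c3, h3⟩ := round_div b z hb
  -- second: `y - (c3 b - z)/3` : 3 y' - z'
  obtain ⟨c2, h2⟩ := round_div (3 * b) (3 * y + (b * c3 - z)) (by omega)
  obtain ⟨c1, h1⟩ := round_div (2 * b) (2 * x + (b * c2 - y) + (b * c3 - z)) (by omega)
  refine ⟨c1, c2, c3, ?_⟩
  set Z := b * c3 - z with hZ
  set Y := b * c2 - y with hY
  set X := b * c1 - x with hX
  have g1 : 4 * (2 * X - Y - Z) ^ 2 ≤ (2 * b) ^ 2 := by
    have : 2 * b * c1 - (2 * x + Y + Z) = 2 * X - Y - Z := by rw [hX]; ring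
    rw [← this]; exact h1
  have g2 : 4 * (3 * Y - Z) ^ 2 ≤ (3 * b) ^ 2 := by
    have : 3 * b * c2 - (3 * y + Z) = 3 * Y - Z := by rw [hY]; ring
    rw [← this]; exact h2
  have key : 12 * qK X Y Z = 3 * (2 * X - Y - Z) ^ 2 + (3 * Y - Z) ^ 2 + 20 * Z ^ 2 := by
    simp only [qK]; ring
  nlinarith

lemma desc (g : Gp) (h : ht g ≠ 0) : ∃ v, ht (JG * (TP (-v) : Gp) * g) < ht g := by
  have hb : 0 < cu g 4 := by
    rw [← ht_cast]; omega
  obtain ⟨c1, c2, c3, hc⟩ := cover (cu g 4) (cu g 1) (cu g 2) (cu g 3) hb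
  refine ⟨(c1, c2, c3), ?_⟩
  have h1 := cu_step g (-(c1, c2, c3))
  simp only [Prod.fst_neg, Prod.snd_neg] at h1
  have hi := cu_iso' g
  have : (ht (JG * (TP (-(c1, c2, c3)) : Gp) * g) : ℤ) < ht g := by
    rw [ht_cast, ht_cast, h1]
    have e : cu g 4 * (cu g 0 + (2 * -c1 - -c2 - -c3) * cu g 1 + (2 * -c2 - -c1) * cu g 2
        + (4 * -c3 - -c1) * cu g 3 + qK (-c1) (-c2) (-c3) * cu g 4)
        = qK (cu g 4 * c1 - cu g 1) (cu g 4 * c2 - cu g 2) (cu g 4 * c3 - cu g 3) := by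
      have : cu g 4 * cu g 0 = qK (cu g 1) (cu g 2) (cu g 3) := by rw [hi]; ring
      rw [mul_add, mul_add, mul_add, mul_add, this]
      simp only [qK]; ring
    have hlt : cu g 4 * (cu g 0 + (2 * -c1 - -c2 - -c3) * cu g 1 + (2 * -c2 - -c1) * cu g 2
        + (4 * -c3 - -c1) * cu g 3 + qK (-c1) (-c2) (-c3) * cu g 4) < cu g 4 * cu g 4 := by
      rw [e]; linarith [hc, sq (cu g 4)]
    exact lt_of_mul_lt_mul_left hlt hb.le
  exact_mod_cast this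

/-- an element fixing `e` and `f` commutes with `J` -/
lemma comm_J {g : GL (Fin 5) ℤ} (hg : isomG g) (he : g.1 *ᵥ (e5 : Fin 5 → ℤ) = e5)
    (hf : g.1 *ᵥ f5 = f5) : g * JU = JU * g := by
  apply Units.ext
  simp only [Units.val_mul]
  apply Matrix.ext_of_mulVec_single
  intro i
  rw [← Matrix.mulVec_mulVec, ← Matrix.mulVec_mulVec]
  change g.1 *ᵥ (JM *ᵥ _) = JM *ᵥ (g.1 *ᵥ _)
  set u : Fin 5 → ℤ := Pi.single i 1
  have h4 : ∀ w : Fin 5 → ℤ, (g.1 *ᵥ w) 4 = w 4 := by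
    intro w
    have h1 := hg e5 w
    rw [he, bf_e5', bf_e5'] at h1
    linarith
  have h0 : ∀ w : Fin 5 → ℤ, (g.1 *ᵥ w) 0 = w 0 := by
    intro w
    have h1 := hg f5 w
    rw [hf] at h1
    simp only [bf, f5] at h1
    simp at h1
    linarith
  have hJ : JM *ᵥ u = u + (u 4 - u 0) • (e5 - f5) := by
    rw [JM_mulVec]
    ext i; fin_cases i <;> simp [e5, f5]
  rw [hJ, Matrix.mulVec_add, Matrix.mulVec_smul, Matrix.mulVec_sub, he, hf, JM_mulVec]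
  ext i
  fin_cases i
  · simp [e5, f5, h0, h4]
  · simp [e5, f5]
  · simp [e5, f5]
  · simp [e5, f5]
  · simp [e5, f5, h0, h4]

lemma nb_eq {w : Fin 5 → ℤ} (h : bf w w = 0) (h4 : w 4 = 1) : w = nb (w 1) (w 2) (w 3) := by
  rw [bf_self, h4] at h
  ext i
  fin_cases i
  · simp [nb]; linarith
  · simp [nb]
  · simp [nb]
  · simp [nb]
  · simpa [nb] using h4

lemma TU_f5 (v : KK) : (TU v).1 *ᵥ f5 = nb v.1 v.2.1 v.2.2 := by
  change TM _ _ _ *ᵥ f5 = _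
  rw [TM_mulVec]
  ext i
  fin_cases i <;> simp [nb, f5]

lemma f5_iso : bf f5 f5 = 0 := by simp [bf, f5]

lemma TP_val (v : KK) : ((TP v : Gp) : GL (Fin 5) ℤ) = TU v := rfl

lemma conjP (s : PG) (v : KK) : ∃ v' : KK, ∃ s' : PG, s * TP v = TP v' * s' ∧
    (s' : Gp) * JG = JG * s' := by
  set w := (s : Gp).1.1 *ᵥ ((TU v).1 *ᵥ f5) with hw
  have h4 : w 4 = 1 := by
    have h1 : bf (e5 : Fin 5 → ℤ) w = bf e5 f5 := by
      have hs : (s : Gp).1.1 *ᵥ (e5 : Fin 5 → ℤ) = e5 := s.2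
      conv_lhs => rw [← hs]
      rw [hw, (s : Gp).2.1]
      conv_lhs => rw [← TU_e5 v]
      exact (TU_mem v).1 _ _
    rw [bf_e5', bf_e5'] at h1
    simp [f5] at h1
    linarith
  have hi : bf w w = 0 := by
    rw [hw, (s : Gp).2.1, (TU_mem v).1]; exact f5_iso
  set v' : KK := (w 1, w 2, w 3) with hv'
  refine ⟨v', (TP v')⁻¹ * (s * TP v), by group, ?_⟩
  have hwn : w = (TU v').1 *ᵥ f5 := by
    rw [TU_f5]; exact nb_eq hi h4
  set s' : PG := (TP v')⁻¹ * (s * TP v) with hs'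
  have hf : (s' : Gp).1.1 *ᵥ f5 = f5 := by
    have e1 : (s' : Gp).1.1 *ᵥ f5 = ((TU v')⁻¹).1 *ᵥ w := by
      rw [hw, hs']
      simp only [Subgroup.coe_mul, Units.val_mul, ← Matrix.mulVec_mulVec, Subgroup.coe_inv]
      rfl
    rw [e1, hwn, Matrix.mulVec_mulVec]
    have : ((TU v')⁻¹).1 * (TU v').1 = 1 := by rw [← Units.val_mul, inv_mul_cancel]; rfl
    rw [this, Matrix.one_mulVec]
  apply Subtype.ext
  exact comm_J (s' : Gp).2.1 s'.2 hf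

lemma A2P (m : KK) (hm : m ∈ L2) :
    JG * (TP m : Gp) * JG = (TP m : Gp) * JG * (TP (-m) : Gp) * (σP m : Gp) := by
  apply Subtype.ext; apply Units.ext
  fin_cases hm <;> decide +kernel

lemma A4P (m : KK) (hm : m ∈ L4) :
    JG * (TP m : Gp) * JG = (TP m : Gp) * JG * (TP (-m) : Gp) * JG * (TP m : Gp) := by
  apply Subtype.ext; apply Units.ext
  fin_cases hm <;> decide +kernel

lemma neg2 : ∀ m ∈ L2, -m ∈ L2 := by decide

lemma neg4 : ∀ m ∈ L4, -m ∈ L4 := by decide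

end MP55F
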