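import Pool.Agent.Lib_MP_55d5ef_f.HD

/-!
# The coset space `Ω = (K / Λ') × O(K)` and the action of the lattice group
-/

open Matrix

namespace MP55F

open Lib_MP_55d5ef_geo

/-- 3 by 3 integral matrices -/
abbrev M3 := Matrix (Fin 3) (Fin 3) ℤ

/-- the Gram matrix of `K` -/
def KM : M3 := !![2, -1, -1; -1, 2, 0; -1, 0, 4]

/-- the action of a 3 by 3 matrix on `K` -/
def mv (R : M3) (v : KK) : KK :=
  (R 0 0 * v.1 + R 0 1 * v.2.1 + R 0 2 * v.2.2,
   R 1 0 * v.1 + R 1 1 * v.2.1 + R 1 2 * v.2.2,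
   R 2 0 * v.1 + R 2 1 * v.2.1 + R 2 2 * v.2.2)

lemma mv_mul (R S : M3) (v : KK) : mv (R * S) v = mv R (mv S v) := by
  simp only [mv, Matrix.mul_apply, Fin.sum_univ_three]
  refine Prod.ext ?_ (Prod.ext ?_ ?_) <;> ring

lemma mv_one (v : KK) : mv 1 v = v := by
  simp [mv]

lemma mv_add (R : M3) (v w : KK) : mv R (v + w) = mv R v + mv R w := by
  simp only [mv, Prod.fst_add, Prod.snd_add]
  refine Prod.ext ?_ (Prod.ext ?_ ?_) <;> simp <;> ring

lemma mv_neg (R : M3) (v : KK) : mv R (-v) = - mv R v := by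
  simp only [mv, Prod.fst_neg, Prod.snd_neg]
  refine Prod.ext ?_ (Prod.ext ?_ ?_) <;> simp <;> ring

/-- the quotient map `K → K / Λ'` -/
def ph (v : KK) : ZMod 2 × ZMod 20 :=
  ((v.1 : ZMod 2), ((v.2.2 - 6 * v.1 - 11 * v.2.1 : ℤ) : ZMod 20))

lemma ph_add (v w : KK) : ph (v + w) = ph v + ph w := by
  simp only [ph, Prod.fst_add, Prod.snd_add]
  refine Prod.ext ?_ ?_
  · simp
  · push_cast
    simp only [Prod.mk_add_mk]
    ring

lemma ph_zero : ph 0 = 0 := by simp [ph]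

lemma ph_neg (v : KK) : ph (-v) = - ph v := by
  have h := ph_add (-v) v
  rw [neg_add_cancel, ph_zero] at h
  exact (neg_eq_of_add_eq_zero_left h.symm).symm

lemma ph_eq_zero (v : KK) : ph v = 0 ↔ InLam v.1 v.2.1 v.2.2 := by
  unfold ph InLam
  rw [Prod.mk_eq_zero, ZMod.intCast_zmod_eq_zero_iff_dvd, ZMod.intCast_zmod_eq_zero_iff_dvd]
  norm_cast

/-- the twelve isometries of `K` -/
def LO : List M3 :=
  [!![-1, 0, 0; -1, 1, 0; 0, 0, -1],
   !![-1, 1, 1; -1, 0, 1; 0, 0, 1],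
   !![-1, 0, 0; 0, -1, 0; 0, 0, -1],
   !![-1, 1, 1; 0, 1, 0; 0, 0, 1],
   !![0, -1, 1; -1, 0, 1; 0, 0, 1],
   !![0, 1, -1; -1, 1, 0; 0, 0, -1],
   !![0, -1, 1; 1, -1, 0; 0, 0, 1],
   !![0, 1, -1; 1, 0, -1; 0, 0, -1],
   !![1, -1, -1; 0, -1, 0; 0, 0, -1],
   !![1, 0, 0; 0, 1, 0; 0, 0, 1],
   !![1, -1, -1; 1, 0, -1; 0, 0, -1],
   !![1, 0, 0; 1, -1, 0; 0, 0, 1]]

/-- the isometries of `K` -/
def OKm : Submonoid M3 where
  carrier := {R | Rᵀ * KM * R = KM}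
  one_mem' := by
    change (1 : M3)ᵀ * KM * 1 = KM
    simp
  mul_mem' := by
    intro a b ha hb
    change (a * b)ᵀ * KM * (a * b) = KM
    change aᵀ * KM * a = KM at ha
    change bᵀ * KM * b = KM at hb
    rw [Matrix.transpose_mul]
    calc bᵀ * aᵀ * KM * (a * b) = bᵀ * (aᵀ * KM * a) * b := by simp only [Matrix.mul_assoc]
      _ = KM := by rw [ha, hb]

lemma mem_OKm {R : M3} : R ∈ OKm ↔ Rᵀ * KM * R = KM := Iff.rfl

lemma norm_two {x y z : ℤ} (h : qK x y z = 1) : (x, y, z) ∈ L2 := by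
  have h2 : (x - y) ^ 2 + (x - z) ^ 2 + y ^ 2 + 3 * z ^ 2 = 2 := by
    have : 2 * qK x y z = (x - y) ^ 2 + (x - z) ^ 2 + y ^ 2 + 3 * z ^ 2 := by
      simp only [qK]; ring
    rw [← this, h]; norm_num
  have hz1 : z < 1 := by nlinarith [sq_nonneg (x - y), sq_nonneg (x - z), sq_nonneg y]
  have hz2 : -1 < z := by nlinarith [sq_nonneg (x - y), sq_nonneg (x - z), sq_nonneg y]
  have hz : z = 0 := by omega
  subst hz
  have hy1 : y < 2 := by nlinarith [sq_nonneg (x - y), sq_nonneg (x - 0), sq_nonneg y]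
  have hy2 : -2 < y := by nlinarith [sq_nonneg (x - y), sq_nonneg (x - 0), sq_nonneg y]
  have hx1 : x < 2 := by nlinarith [sq_nonneg (x - y), sq_nonneg (x - 0), sq_nonneg y]
  have hx2 : -2 < x := by nlinarith [sq_nonneg (x - y), sq_nonneg (x - 0), sq_nonneg y]
  interval_cases x <;> interval_cases y <;> first | (exfalso; revert h2; decide) | decide

lemma norm_four {x y z : ℤ} (h : qK x y z = 2) : (x, y, z) ∈ L4 := by
  have h2 : (x - y) ^ 2 + (x - z) ^ 2 + y ^ 2 + 3 * z ^ 2 = 4 := by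
    have : 2 * qK x y z = (x - y) ^ 2 + (x - z) ^ 2 + y ^ 2 + 3 * z ^ 2 := by
      simp only [qK]; ring
    rw [← this, h]; norm_num
  have hz1 : z < 2 := by nlinarith [sq_nonneg (x - y), sq_nonneg (x - z), sq_nonneg y]
  have hz2 : -2 < z := by nlinarith [sq_nonneg (x - y), sq_nonneg (x - z), sq_nonneg y]
  have hy1 : y < 3 := by nlinarith [sq_nonneg (x - y), sq_nonneg (x - z), sq_nonneg z]
  have hy2 : -3 < y := by nlinarith [sq_nonneg (x - y), sq_nonneg (x - z), sq_nonneg z]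
  have hx1 : x - z < 3 := by nlinarith [sq_nonneg (x - y), sq_nonneg z, sq_nonneg y]
  have hx2 : -3 < x - z := by nlinarith [sq_nonneg (x - y), sq_nonneg z, sq_nonneg y]
  have hx3 : x < 4 := by omega
  have hx4 : -4 < x := by omega
  interval_cases z <;> interval_cases x <;> interval_cases y <;>
    first | (exfalso; revert h2; decide) | decide

/-- inner product of `K` -/
def ipK (a b : KK) : ℤ :=
  2 * (a.1 * b.1) + 2 * (a.2.1 * b.2.1) + 4 * (a.2.2 * b.2.2) - (a.1 * b.2.1 + a.2.1 * b.1)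
    - (a.1 * b.2.2 + a.2.2 * b.1)

/-- matrix with given columns -/
def mk3 (a b c : KK) : M3 :=
  !![a.1, b.1, c.1; a.2.1, b.2.1, c.2.1; a.2.2, b.2.2, c.2.2]

lemma cls3 : ∀ a ∈ L2, ∀ b ∈ L2, ∀ c ∈ L4, ipK a b = -1 → ipK a c = -1 → ipK b c = 0 →
    mk3 a b c ∈ LO := by decide +kernel

lemma mem_LO {R : M3} (hR : R ∈ OKm) : R ∈ LO := by
  rw [mem_OKm] at hR
  have e00 := congrFun (congrFun hR 0) 0
  have e11 := congrFun (congrFun hR 1) 1
  have e22 := congrFun (congrFun hR 2) 2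
  have e01 := congrFun (congrFun hR 0) 1
  have e02 := congrFun (congrFun hR 0) 2
  have e12 := congrFun (congrFun hR 1) 2
  simp only [Matrix.mul_apply, Fin.sum_univ_three, Matrix.transpose_apply, KM] at e00 e11 e22 e01 e02 e12
  simp at e00 e11 e22 e01 e02 e12
  have q0 : (R 0 0, R 1 0, R 2 0) ∈ L2 := norm_two (by simp only [qK]; linarith)
  have q1 : (R 0 1, R 1 1, R 2 1) ∈ L2 := norm_two (by simp only [qK]; linarith)
  have q2 : (R 0 2, R 1 2, R 2 2) ∈ L4 := norm_four (by simp only [qK]; linarith)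
  have h := cls3 _ q0 _ q1 _ q2 (by simp only [ipK]; linarith) (by simp only [ipK]; linarith)
    (by simp only [ipK]; linarith)
  have e : mk3 (R 0 0, R 1 0, R 2 0) (R 0 1, R 1 1, R 2 1) (R 0 2, R 1 2, R 2 2) = R := by
    ext i j
    fin_cases i <;> fin_cases j <;> rfl
  rw [e] at h
  exact h

lemma LO_mem : ∀ R ∈ LO, R ∈ OKm := by
  have : ∀ R ∈ LO, Rᵀ * KM * R = KM := by decide +kernel
  exact this

/-- the reflection in `m` as a 3 by 3 matrix (used for norm 2) -/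
def rf (m : KK) : M3 :=
  if m = (1, 0, 0) ∨ m = (-1, 0, 0) then !![-1, 1, 1; 0, 1, 0; 0, 0, 1]
  else if m = (0, 1, 0) ∨ m = (0, -1, 0) then !![1, 0, 0; 1, -1, 0; 0, 0, 1]
  else !![0, -1, 1; -1, 0, 1; 0, 0, 1]

lemma rf_conj0 : ∀ R ∈ LO, ∀ m ∈ L2, mv R m ∈ L2 ∧ rf (mv R m) * R = R * rf m := by
  decide +kernel

lemma L4_img0 : ∀ R ∈ LO, ∀ m ∈ L4, mv R m ∈ L4 := by decide +kernel

lemma rf_neg : ∀ m ∈ L2, mv (rf m) m = -m := by decide +kernel

/-- the gluing table: for the class `c`, the partner class and the index of the reflection -/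
def jl : List (ℕ × ℕ × ℕ) :=
  [(0, 11, 0), (0, 13, 2), (1, 9, 2), (0, 16, 1), (1, 16, 0), (1, 5, 0), (1, 14, 0), (0, 14, 1),
   (1, 1, 2), (0, 17, 2), (0, 19, 0), (0, 0, 0), (1, 18, 2), (0, 1, 2), (0, 7, 1), (1, 15, 1),
   (0, 3, 1), (0, 9, 2), (1, 12, 2), (0, 10, 0), (1, 17, 0), (0, 8, 2), (1, 7, 1), (1, 8, 1),
   (1, 11, 0), (0, 5, 0), (1, 19, 0), (1, 2, 1), (1, 3, 1), (0, 2, 2), (1, 13, 0), (1, 4, 0),
   (0, 18, 2), (1, 10, 0), (0, 6, 0), (0, 15, 1), (0, 4, 0), (1, 0, 0), (0, 12, 2), (1, 6, 0)]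

/-- table entry of a class -/
def je (c : ZMod 2 × ZMod 20) : ℕ × ℕ × ℕ := jl.getD (c.1.val * 20 + c.2.val) (0, 0, 0)

/-- partner class -/
def jc (c : ZMod 2 × ZMod 20) : ZMod 2 × ZMod 20 := (((je c).1 : ZMod 2), ((je c).2.1 : ZMod 20))

/-- the three reflections -/
def rk (k : ℕ) : M3 :=
  if k = 0 then !![-1, 1, 1; 0, 1, 0; 0, 0, 1]
  else if k = 1 then !![0, -1, 1; -1, 0, 1; 0, 0, 1]
  else !![1, 0, 0; 1, -1, 0; 0, 0, 1]

/-- the reflection of the gluing at the class `c` -/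
def rc (c : ZMod 2 × ZMod 20) : M3 := rk (je c).2.2

lemma rk_mem (k : ℕ) : rk k ∈ LO := by
  unfold rk
  split_ifs <;> simp [LO]

lemma jc_jc : ∀ c, jc (jc c) = c := by decide +kernel

lemma rc_rc : ∀ c, rc (jc c) * rc c = 1 := by decide +kernel

lemma chk2 : ∀ c, ∀ m ∈ L2,
    jc (jc c - ph (mv (rc c) m)) = jc (c - ph m) + ph (mv (rc (c - ph m)) m) ∧
    rc (jc c - ph (mv (rc c) m)) * rc c = rc (c - ph m) * rf m := by decide +kernel

lemma chk4 : ∀ c, ∀ m ∈ L4,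
    jc (jc c - ph (mv (rc c) m)) =
      jc (jc (c - ph m) + ph (mv (rc (c - ph m)) m))
        - ph (mv (rc (jc (c - ph m) + ph (mv (rc (c - ph m)) m))) (mv (rc (c - ph m)) m)) ∧
    rc (jc c - ph (mv (rc c) m)) * rc c =
      rc (jc (c - ph m) + ph (mv (rc (c - ph m)) m)) * rc (c - ph m) := by decide +kernel

end MP55F
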